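import Mathlib

/-! Orbits, pointwise stabilisers and a greedy hitting set lemma. -/

namespace Pool.Agent.H201Z.Tiny

open Finset Equiv

variable {V : Type} [Fintype V] [DecidableEq V]

open Classical in
/-- the orbit of a point -/
noncomputable def orb (A : Subgroup (Perm V)) (x : V) : Finset V :=
  univ.filter fun y => ∃ g ∈ A, g x = y

lemma mem_orb {A : Subgroup (Perm V)} {x y : V} : y ∈ orb A x ↔ ∃ g ∈ A, g x = y := by
  simp [orb]

lemma self_mem_orb (A : Subgroup (Perm V)) (x : V) : x ∈ orb A x :=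
  mem_orb.2 ⟨1, A.one_mem, rfl⟩

lemma apply_mem_orb {A : Subgroup (Perm V)} {g : Perm V} (hg : g ∈ A) (x : V) : g x ∈ orb A x :=
  mem_orb.2 ⟨g, hg, rfl⟩

lemma orb_apply {A : Subgroup (Perm V)} {g : Perm V} (hg : g ∈ A) (x : V) :
    orb A (g x) = orb A x := by
  ext y
  simp only [mem_orb]
  constructor
  · rintro ⟨h, hh, rfl⟩
    exact ⟨h * g, A.mul_mem hh hg, rfl⟩
  · rintro ⟨h, hh, rfl⟩
    exact ⟨h * g⁻¹, A.mul_mem hh (A.inv_mem hg), by simp⟩

lemma orb_eq_of_mem {A : Subgroup (Perm V)} {x y : V} (h : y ∈ orb A x) : orb A y = orb A x := by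
  obtain ⟨g, hg, rfl⟩ := mem_orb.1 h
  exact orb_apply hg x

lemma orb_mono {A B : Subgroup (Perm V)} (h : A ≤ B) (x : V) : orb A x ⊆ orb B x := by
  intro y hy
  obtain ⟨g, hg, rfl⟩ := mem_orb.1 hy
  exact apply_mem_orb (h hg) x

/-- pointwise stabiliser -/
def fixS (A : Subgroup (Perm V)) (S : Finset V) : Subgroup (Perm V) where
  carrier := {g | g ∈ A ∧ ∀ s ∈ S, g s = s}
  mul_mem' := by
    rintro g h ⟨hg, hg'⟩ ⟨hh, hh'⟩
    refine ⟨A.mul_mem hg hh, fun s hs => ?_⟩
    simp [hh' s hs, hg' s hs]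
  one_mem' := ⟨A.one_mem, fun _ _ => rfl⟩
  inv_mem' := by
    rintro g ⟨hg, hg'⟩
    refine ⟨A.inv_mem hg, fun s hs => ?_⟩
    have := hg' s hs
    exact Perm.inv_eq_iff_eq.2 this.symm

omit [Fintype V] [DecidableEq V] in
lemma mem_fixS {A : Subgroup (Perm V)} {S : Finset V} {g : Perm V} :
    g ∈ fixS A S ↔ g ∈ A ∧ ∀ s ∈ S, g s = s := Iff.rfl

omit [Fintype V] [DecidableEq V] in
lemma fixS_le (A : Subgroup (Perm V)) (S : Finset V) : fixS A S ≤ A := fun _ h => h.1

lemma orb_le_mul (H : Subgroup (Perm V)) (x s : V) :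
    (orb H x).card ≤ (orb (fixS H {s}) x).card * (orb H s).card := by
  classical
  have hch : ∀ y, ∃ g : Perm V, y ∈ orb H x → g ∈ H ∧ g x = y := by
    intro y
    by_cases hy : y ∈ orb H x
    · obtain ⟨g, hg, h⟩ := mem_orb.1 hy
      exact ⟨g, fun _ => ⟨hg, h⟩⟩
    · exact ⟨1, fun h => absurd h hy⟩
  choose g hg using hch
  refine card_le_mul_card_image_of_maps_to (f := fun y => g y s) ?_ _ ?_
  · intro y hy
    exact apply_mem_orb (hg y hy).1 s
  · intro t ht
    obtain ⟨h, hh, rfl⟩ := mem_orb.1 ht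
    refine card_le_card_of_injOn (fun y => h⁻¹ y) ?_ ?_
    · intro y hy
      simp only [coe_filter, Set.mem_setOf_eq] at hy
      obtain ⟨hy, hy'⟩ := hy
      refine mem_coe.2 (mem_orb.2 ⟨h⁻¹ * g y, ⟨H.mul_mem (H.inv_mem hh) (hg y hy).1, ?_⟩, ?_⟩)
      · intro s' hs'
        rw [mem_singleton.1 hs']
        simp [hy']
      · simp [(hg y hy).2]
    · intro y _ z _ hyz
      exact (h⁻¹).injective hyz

/-- orbits of stabilisers are moved by conjugation -/
lemma card_orb_fix_apply {A : Subgroup (Perm V)} {g : Perm V} (hg : g ∈ A) (x s : V) :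
    (orb (fixS A {g s}) (g x)).card = (orb (fixS A {s}) x).card := by
  symm
  refine card_bij (fun y _ => g y) ?_ ?_ ?_
  · intro y hy
    obtain ⟨h, hh, rfl⟩ := mem_orb.1 hy
    refine mem_orb.2 ⟨g * h * g⁻¹, ⟨A.mul_mem (A.mul_mem hg hh.1) (A.inv_mem hg), ?_⟩, by simp⟩
    intro t ht
    rw [mem_singleton.1 ht]
    simp [hh.2 s (mem_singleton_self s)]
  · intro y _ z _ h
    exact g.injective h
  · intro y hy
    obtain ⟨h, hh, rfl⟩ := mem_orb.1 hy
    refine ⟨g⁻¹ (h (g x)), mem_orb.2 ⟨g⁻¹ * h * g,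
      ⟨A.mul_mem (A.mul_mem (A.inv_mem hg) hh.1) hg, ?_⟩, by simp⟩, by simp⟩
    intro t ht
    rw [mem_singleton.1 ht]
    simp [hh.2 (g s) (mem_singleton_self _)]

lemma hit_step {ι : Type} (I : Finset ι) (D : ι → Finset V) (L : ℕ) (hD : ∀ i ∈ I, L ≤ (D i).card)
    (hn : 0 < Fintype.card V) :
    ∃ v : V, ((I.filter fun i => v ∉ D i).card : ℝ) ≤ I.card * (1 - L / Fintype.card V) := by
  classical
  have hne : Nonempty V := Fintype.card_pos_iff.1 hn
  have hsum : ∑ v : V, ((I.filter fun i => v ∉ D i).card : ℝ) ≤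
      ∑ _v : V, (I.card : ℝ) * (1 - L / Fintype.card V) := by
    have h1 : ∑ v : V, ((I.filter fun i => v ∉ D i).card : ℝ) =
        ∑ i ∈ I, ((univ.filter fun v => v ∉ D i).card : ℝ) := by
      simp only [card_filter]
      push_cast
      rw [sum_comm]
    rw [h1, sum_const, card_univ, nsmul_eq_mul]
    have h2 : ∀ i ∈ I, ((univ.filter fun v => v ∉ D i).card : ℝ) ≤ Fintype.card V - L := by
      intro i hi
      have : (univ.filter fun v => v ∉ D i) = (D i)ᶜ := by ext; simp
      rw [this, card_compl, Nat.cast_sub (card_le_univ _)]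
      have := hD i hi
      have : (L : ℝ) ≤ (D i).card := by exact_mod_cast this
      linarith
    refine (sum_le_card_nsmul _ _ _ h2).trans ?_
    rw [nsmul_eq_mul]
    have : (Fintype.card V : ℝ) ≠ 0 := by positivity
    apply le_of_eq
    field_simp
  obtain ⟨v, -, hv⟩ := exists_le_of_sum_le univ_nonempty hsum
  exact ⟨v, hv⟩

lemma hit_iter {ι : Type} (I : Finset ι) (D : ι → Finset V) (L : ℕ) (hD : ∀ i ∈ I, L ≤ (D i).card)
    (hn : 0 < Fintype.card V) (t : ℕ) :
    ∃ S : Finset V, S.card ≤ t ∧ ((I.filter fun i => Disjoint S (D i)).card : ℝ) ≤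
      I.card * Real.exp (-(t * L / Fintype.card V)) := by
  classical
  induction t with
  | zero => exact ⟨∅, le_rfl, by simp⟩
  | succ t ih =>
    obtain ⟨S, hS, hS'⟩ := ih
    obtain ⟨v, hv⟩ := hit_step (I.filter fun i => Disjoint S (D i)) D L
      (fun i hi => hD i (mem_filter.1 hi).1) hn
    refine ⟨insert v S, (card_insert_le _ _).trans (by omega), ?_⟩
    have e : (I.filter fun i => Disjoint (insert v S) (D i)) =
        ((I.filter fun i => Disjoint S (D i)).filter fun i => v ∉ D i) := by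
      ext i
      simp only [mem_filter, disjoint_insert_left]
      tauto
    rw [e]
    refine hv.trans ?_
    have h1 : (1 - L / Fintype.card V : ℝ) ≤ Real.exp (-(L / Fintype.card V)) := by
      have := Real.add_one_le_exp (-(L / Fintype.card V : ℝ))
      linarith
    calc ((I.filter fun i => Disjoint S (D i)).card : ℝ) * (1 - L / Fintype.card V)
        ≤ ((I.filter fun i => Disjoint S (D i)).card : ℝ) * Real.exp (-(L / Fintype.card V)) :=
          mul_le_mul_of_nonneg_left h1 (by positivity)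
      _ ≤ I.card * Real.exp (-(t * L / Fintype.card V)) * Real.exp (-(L / Fintype.card V)) :=
          mul_le_mul_of_nonneg_right hS' (by positivity)
      _ = _ := by
          rw [mul_assoc, ← Real.exp_add]
          congr 2
          push_cast
          ring

/-- hitting sets: every set is hit or its owner is taken -/
lemma hitting {ι : Type} (I : Finset ι) (D : ι → Finset V) (own : ι → V) (L : ℕ) (hL : 0 < L)
    (hD : ∀ i ∈ I, L ≤ (D i).card) (h N : ℕ) (hN : I.card ≤ N) :
    ∃ S : Finset V, S.card ≤ h * (Fintype.card V / L + 1) + N / 2 ^ h ∧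
      ∀ i ∈ I, own i ∈ S ∨ ∃ s ∈ S, s ∈ D i := by
  classical
  rcases Nat.eq_zero_or_pos (Fintype.card V) with h0 | hn
  · refine ⟨∅, by simp, fun i _ => ?_⟩
    have : IsEmpty V := Fintype.card_eq_zero_iff.1 h0
    exact this.elim (own i)
  obtain ⟨S, hS, hS'⟩ := hit_iter I D L hD hn (h * (Fintype.card V / L + 1))
  refine ⟨S ∪ (I.filter fun i => Disjoint S (D i)).image own, ?_, ?_⟩
  · refine (card_union_le _ _).trans (Nat.add_le_add hS (card_image_le.trans ?_))
    rw [Nat.le_div_iff_mul_le (by positivity)]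
    have h1 : Real.exp (-(((h * (Fintype.card V / L + 1) : ℕ) : ℝ) * L / Fintype.card V)) ≤
        ((2 : ℝ) ^ h)⁻¹ := by
      have h2 : (h : ℝ) ≤ ((h * (Fintype.card V / L + 1) : ℕ) : ℝ) * L / Fintype.card V := by
        rw [le_div_iff₀ (by positivity)]
        have : h * Fintype.card V ≤ (h * (Fintype.card V / L + 1)) * L := by
          rw [mul_assoc]
          apply Nat.mul_le_mul_left
          have := Nat.div_add_mod (Fintype.card V) L
          have := Nat.mod_lt (Fintype.card V) hL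
          nlinarith
        exact_mod_cast this
      have h3 : (2 : ℝ) ^ h ≤ Real.exp h := by
        rw [← mul_one (h : ℝ), Real.exp_nat_mul]
        apply pow_le_pow_left₀ (by norm_num)
        have := Real.add_one_le_exp (1 : ℝ)
        linarith
      rw [Real.exp_neg]
      apply inv_anti₀ (by positivity)
      exact h3.trans (Real.exp_le_exp.2 h2)
    have h4 : ((I.filter fun i => Disjoint S (D i)).card : ℝ) * 2 ^ h ≤ N := by
      have h5 : (I.card : ℝ) ≤ N := by exact_mod_cast hN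
      have h6 := hS'.trans (mul_le_mul h5 h1 (by positivity) (by positivity))
      have h7 : (0 : ℝ) < 2 ^ h := by positivity
      rwa [← div_eq_mul_inv, le_div_iff₀ h7] at h6
    exact_mod_cast h4
  · intro i hi
    by_cases hd : Disjoint S (D i)
    · exact Or.inl (mem_union_right _ (mem_image_of_mem _ (mem_filter.2 ⟨hi, hd⟩)))
    · obtain ⟨s, hs, hs'⟩ := not_disjoint_iff.1 hd
      exact Or.inr ⟨s, mem_union_left _ hs, hs'⟩

end Pool.Agent.H201Z.Tiny
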