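import Pool.Agent.H201Z.Tiny.A

/-! The key lemma: after fixing few points, every large orbit consists of small exchangeable
pieces. -/

namespace Pool.Agent.H201Z.Tiny

open Finset Equiv

variable {V : Type} [Fintype V] [DecidableEq V] (G : SimpleGraph V)

open Classical in
/-- vertices distinguishing `x` and `y` -/
noncomputable def dist2 (x y : V) : Finset V := univ.filter fun z => ¬ (G.Adj x z ↔ G.Adj y z)

open Classical in
/-- majority adjacency of the orbit of `x` to `z` -/
def beta (A : Subgroup (Perm V)) (x z : V) : Prop :=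
  (orb A x).card < 2 * ((orb A x).filter fun y => G.Adj y z).card

open Classical in
/-- exceptional vertices of `x` -/
noncomputable def Pc (A : Subgroup (Perm V)) (x : V) : Finset V :=
  univ.filter fun z => ¬ (G.Adj x z ↔ beta G A x z)

open Classical in
/-- closure of `x` under exceptional vertices -/
noncomputable def Cl (A : Subgroup (Perm V)) (x : V) : Finset V :=
  univ.filter fun z => Relation.ReflTransGen (fun u v => v ∈ Pc G A u) x z

/-- points whose stabiliser has a short orbit at `x` -/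
noncomputable def good (A : Subgroup (Perm V)) (x : V) (Λ : ℕ) : Finset V :=
  univ.filter fun s => (orb (fixS A {s}) x).card ≤ Λ

/-- the group acts by automorphisms -/
def Acts (A : Subgroup (Perm V)) : Prop := ∀ g ∈ A, ∀ u v, G.Adj (g u) (g v) ↔ G.Adj u v

variable {G} {A : Subgroup (Perm V)}

lemma beta_left {g : Perm V} (hg : g ∈ A) (x z : V) : beta G A (g x) z ↔ beta G A x z := by
  unfold beta
  rw [orb_apply hg]

lemma beta_right (hA : Acts G A) {g : Perm V} (hg : g ∈ A) (x z : V) :
    beta G A x (g z) ↔ beta G A x z := by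
  classical
  unfold beta
  have : ((orb A x).filter fun y => G.Adj y z).card =
      ((orb A x).filter fun y => G.Adj y (g z)).card := by
    refine card_bij (fun y _ => g y) ?_ ?_ ?_
    · intro y hy
      rw [mem_filter] at hy ⊢
      refine ⟨?_, (hA g hg _ _).2 hy.2⟩
      rw [← orb_eq_of_mem hy.1]
      exact apply_mem_orb hg y
    · intro y _ z _ h
      exact g.injective h
    · intro y hy
      rw [mem_filter] at hy
      refine ⟨g⁻¹ y, mem_filter.2 ⟨?_, ?_⟩, by simp⟩
      · rw [← orb_eq_of_mem hy.1]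
        exact apply_mem_orb (A.inv_mem hg) y
      · rw [← hA g hg]
        simpa using hy.2
  constructor
  · intro h
    convert h using 2
  · intro h
    convert h using 2
    exact this.symm

open Classical in
lemma half (x z : V) :
    2 * ((orb A x).filter fun y => ¬ (G.Adj y z ↔ beta G A x z)).card ≤ (orb A x).card := by
  have hs := card_filter_add_card_filter_not (s := orb A x) (fun y => G.Adj y z)
  by_cases hb : beta G A x z
  · have e : ((orb A x).filter fun y => ¬ (G.Adj y z ↔ beta G A x z)) =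
        (orb A x).filter fun y => ¬ G.Adj y z := by
      apply filter_congr
      intro y _
      simp [hb]
    rw [e]
    unfold beta at hb
    omega
  · have e : ((orb A x).filter fun y => ¬ (G.Adj y z ↔ beta G A x z)) =
        (orb A x).filter fun y => G.Adj y z := by
      apply filter_congr
      intro y _
      simp [hb]
    rw [e]
    unfold beta at hb
    omega

lemma mem_Pc {x z : V} : z ∈ Pc G A x ↔ ¬ (G.Adj x z ↔ beta G A x z) := by
  simp only [Pc, mem_filter, mem_univ, true_and]

lemma mem_dist2 {x y z : V} : z ∈ dist2 G x y ↔ ¬ (G.Adj x z ↔ G.Adj y z) := by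
  simp only [dist2, mem_filter, mem_univ, true_and]

lemma mem_Cl {x z : V} :
    z ∈ Cl G A x ↔ Relation.ReflTransGen (fun u v => v ∈ Pc G A u) x z := by
  simp only [Cl, mem_filter, mem_univ, true_and]

lemma card_Pc {L : ℕ} (hn : ∀ x, ∀ y ∈ orb A x, (dist2 G x y).card ≤ L) (x : V) :
    (Pc G A x).card ≤ 2 * L := by
  classical
  have hpos : 0 < (orb A x).card := card_pos.2 ⟨x, self_mem_orb A x⟩
  have h1 : ∑ z ∈ Pc G A x, ((orb A x).filter fun y => z ∈ dist2 G x y).card =
      ∑ y ∈ orb A x, ((Pc G A x).filter fun z => z ∈ dist2 G x y).card := by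
    simp only [card_filter]
    rw [sum_comm]
  have h2 : ∑ y ∈ orb A x, ((Pc G A x).filter fun z => z ∈ dist2 G x y).card ≤
      (orb A x).card * L := by
    rw [← smul_eq_mul]
    apply sum_le_card_nsmul
    intro y hy
    refine le_trans (card_le_card ?_) (hn x y hy)
    intro z hz
    exact (mem_filter.1 hz).2
  have h3 : ∀ z ∈ Pc G A x, (orb A x).card ≤
      2 * ((orb A x).filter fun y => z ∈ dist2 G x y).card := by
    intro z hz
    have h4 := half (G := G) (A := A) x z
    have hs := card_filter_add_card_filter_not (s := orb A x)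
      (fun y => (G.Adj y z ↔ beta G A x z))
    have h5 : ((orb A x).filter fun y => (G.Adj y z ↔ beta G A x z)).card ≤
        ((orb A x).filter fun y => z ∈ dist2 G x y).card := by
      apply card_le_card
      intro y hy
      rw [mem_filter] at hy ⊢
      refine ⟨hy.1, mem_dist2.2 ?_⟩
      have := mem_Pc.1 hz
      tauto
    have h6 : ((orb A x).filter fun y => ¬ (G.Adj y z ↔ beta G A x z)).card =
      ((orb A x).filter fun y => ¬ (G.Adj y z ↔ beta G A x z)).card := rfl
    omega
  have h7 : (Pc G A x).card * (orb A x).card ≤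
      ∑ z ∈ Pc G A x, 2 * ((orb A x).filter fun y => z ∈ dist2 G x y).card := by
    rw [← smul_eq_mul]
    exact card_nsmul_le_sum _ _ _ h3
  rw [← mul_sum, h1] at h7
  have h8 : (Pc G A x).card * (orb A x).card ≤ (2 * L) * (orb A x).card := by nlinarith
  exact Nat.le_of_mul_le_mul_right h8 hpos

lemma beta_symm (hA : Acts G A) {L : ℕ} (hn : ∀ x, ∀ y ∈ orb A x, (dist2 G x y).card ≤ L)
    (x z : V) (hz : 4 * L < (orb A z).card) : beta G A x z ↔ beta G A z x := by
  classical
  by_contra hne
  have h1 := half (G := G) (A := A) z x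
  have h2 := card_Pc hn x
  have h3 : orb A z ⊆ Pc G A x ∪ (orb A z).filter fun y => ¬ (G.Adj y x ↔ beta G A z x) := by
    intro y hy
    rw [mem_union, mem_filter, mem_Pc]
    obtain ⟨g, hg, rfl⟩ := mem_orb.1 hy
    rw [beta_right hA hg, G.adj_comm (g z) x]
    have := apply_mem_orb hg z
    tauto
  have h4 := (card_le_card h3).trans (card_union_le _ _)
  omega

lemma mem_Pc_symm (hA : Acts G A) {L : ℕ} (hn : ∀ x, ∀ y ∈ orb A x, (dist2 G x y).card ≤ L)
    (x z : V) (hz : 4 * L < (orb A z).card) : z ∈ Pc G A x ↔ x ∈ Pc G A z := by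
  rw [mem_Pc, mem_Pc, beta_symm hA hn x z hz, G.adj_comm]

lemma Pc_apply (hA : Acts G A) {g : Perm V} (hg : g ∈ A) (x z : V) :
    g z ∈ Pc G A (g x) ↔ z ∈ Pc G A x := by
  rw [mem_Pc, mem_Pc, beta_left hg, beta_right hA hg, hA g hg]

lemma Cl_apply_mem (hA : Acts G A) {g : Perm V} (hg : g ∈ A) {x z : V} (h : z ∈ Cl G A x) :
    g z ∈ Cl G A (g x) := by
  rw [mem_Cl] at h ⊢
  induction h with
  | refl => exact Relation.ReflTransGen.refl
  | tail _ hc ih => exact ih.tail ((Pc_apply hA hg _ _).2 hc)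

lemma Cl_apply (hA : Acts G A) {g : Perm V} (hg : g ∈ A) (x : V) :
    Cl G A (g x) = (Cl G A x).image g := by
  ext z
  rw [mem_image]
  constructor
  · intro hz
    refine ⟨g⁻¹ z, ?_, by simp⟩
    have := Cl_apply_mem hA (A.inv_mem hg) hz
    simpa using this
  · rintro ⟨y, hy, rfl⟩
    exact Cl_apply_mem hA hg hy

lemma step_good (hA : Acts G A) {L : ℕ} (hn : ∀ x, ∀ y ∈ orb A x, (dist2 G x y).card ≤ L)
    (x s w : V) (hs : 4 * L < (orb A s).card) (hw : w ∈ Pc G A s) :
    (orb (fixS A {w}) x).card ≤ (orb (fixS A {s}) x).card * (2 * L) := by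
  refine (orb_le_mul (fixS A {w}) x s).trans (Nat.mul_le_mul ?_ ?_)
  · apply card_le_card
    apply orb_mono
    intro g hg
    exact ⟨hg.1.1, hg.2⟩
  · refine le_trans (card_le_card ?_) (card_Pc hn w)
    intro y hy
    obtain ⟨g, hg, rfl⟩ := mem_orb.1 hy
    have h1 : s ∈ Pc G A w := (mem_Pc_symm hA hn w s hs).2 hw
    have h2 := (Pc_apply hA hg.1 w s).2 h1
    rwa [hg.2 w (mem_singleton_self w)] at h2

lemma mem_good {x s : V} {Λ : ℕ} : s ∈ good A x Λ ↔ (orb (fixS A {s}) x).card ≤ Λ := by
  simp [good]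

lemma card_good_apply {g : Perm V} (hg : g ∈ A) (x : V) (Λ : ℕ) :
    (good A (g x) Λ).card = (good A x Λ).card := by
  symm
  refine card_bij (fun y _ => g y) ?_ ?_ ?_
  · intro y hy
    rw [mem_good] at hy ⊢
    rwa [card_orb_fix_apply hg]
  · intro y _ z _ h
    exact g.injective h
  · intro y hy
    refine ⟨g⁻¹ y, ?_, by simp⟩
    rw [mem_good] at hy ⊢
    rw [← card_orb_fix_apply hg]
    simpa using hy

lemma card_S3 (L Λ Λ' : ℕ) :
    Λ * (univ.filter fun w => ∃ x, (good A x Λ').card < L ∧ w ∈ good A x Λ' ∧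
      w ∉ good A x Λ).card ≤ Fintype.card V * L := by
  classical
  set S := univ.filter fun w => ∃ x, (good A x Λ').card < L ∧ w ∈ good A x Λ' ∧ w ∉ good A x Λ
  have h1 : ∑ w ∈ S, (univ.filter fun x => (good A x Λ').card < L ∧ w ∈ good A x Λ').card =
      ∑ x : V, (S.filter fun w => (good A x Λ').card < L ∧ w ∈ good A x Λ').card := by
    simp only [card_filter]
    rw [sum_comm]
  have h2 : ∑ x : V, (S.filter fun w => (good A x Λ').card < L ∧ w ∈ good A x Λ').card ≤
      Fintype.card V * L := by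
    rw [← smul_eq_mul, ← card_univ]
    apply sum_le_card_nsmul
    intro x _
    by_cases hx : (good A x Λ').card < L
    · refine le_trans (card_le_card ?_) hx.le
      intro w hw
      exact (mem_filter.1 hw).2.2
    · have : (S.filter fun w => (good A x Λ').card < L ∧ w ∈ good A x Λ') = ∅ := by
        apply filter_eq_empty_iff.2
        intro w _ h
        exact hx h.1
      rw [this]
      simp
  have h3 : ∀ w ∈ S, Λ ≤
      (univ.filter fun x => (good A x Λ').card < L ∧ w ∈ good A x Λ').card := by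
    intro w hw
    obtain ⟨x, hx1, hx2, hx3⟩ := (mem_filter.1 hw).2
    rw [mem_good, not_le] at hx3
    refine hx3.le.trans (card_le_card ?_)
    intro y hy
    obtain ⟨g, hg, rfl⟩ := mem_orb.1 hy
    refine mem_filter.2 ⟨mem_univ _, ?_, ?_⟩
    · rwa [card_good_apply hg.1]
    · rw [mem_good] at hx2 ⊢
      have := card_orb_fix_apply hg.1 x w
      rw [hg.2 w (mem_singleton_self w)] at this
      rwa [this]
  have h4 := card_nsmul_le_sum _ _ _ h3
  rw [smul_eq_mul, h1, mul_comm] at h4
  exact h4.trans h2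

/-- the structure found on the large orbits -/
structure Pieces (G : SimpleGraph V) (A : Subgroup (Perm V)) (L : ℕ) where
  Y : Set V
  C : V → Finset V
  β : V → V → Prop
  β_left : ∀ g ∈ A, ∀ x z, β (g x) z ↔ β x z
  β_right : ∀ g ∈ A, ∀ x z, β x (g z) ↔ β x z
  small : ∀ x ∉ Y, (orb A x).card ≤ 4 * L ^ 3
  self_mem : ∀ x ∈ Y, x ∈ C x
  card_le : ∀ x ∈ Y, (C x).card ≤ L
  mem_Y : ∀ x ∈ Y, ∀ y ∈ C x, y ∈ Y
  C_eq : ∀ x ∈ Y, ∀ y ∈ C x, C y = C x
  apply_Y : ∀ x ∈ Y, ∀ g ∈ A, g x ∈ Y
  C_apply : ∀ x ∈ Y, ∀ g ∈ A, C (g x) = (C x).image g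
  adj : ∀ x ∈ Y, ∀ v ∉ C x, (G.Adj x v ↔ β x v)

lemma Cl_eq (hA : Acts G A) {L : ℕ} (hn : ∀ x, ∀ y ∈ orb A x, (dist2 G x y).card ≤ L)
    {x y : V} (hx : ∀ z ∈ Cl G A x, 4 * L < (orb A z).card) (hy : y ∈ Cl G A x) :
    Cl G A y = Cl G A x := by
  have hback : x ∈ Cl G A y := by
    rw [mem_Cl] at hy ⊢
    induction hy with
    | refl => exact Relation.ReflTransGen.refl
    | @tail b c hb hc ih =>
      refine Relation.ReflTransGen.head ?_ ih
      exact (mem_Pc_symm hA hn b c (hx c (mem_Cl.2 (hb.tail hc)))).1 hc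
  ext z
  rw [mem_Cl] at hy hback
  rw [mem_Cl, mem_Cl]
  exact ⟨fun h => hy.trans h, fun h => hback.trans h⟩

lemma key2 (hA : Acts G A) {L : ℕ} (hL : 0 < L)
    (hn : ∀ x, ∀ y ∈ orb A x, (dist2 G x y).card ≤ L) (h N : ℕ) (hN : Fintype.card V ≤ N) :
    ∃ S : Finset V, S.card ≤ (h * (Fintype.card V / L + 1) + N / 2 ^ h) + Fintype.card V / L ∧
      Nonempty (Pieces G (fixS A S) L) := by
  classical
  obtain ⟨S2, hS2, hS2'⟩ := hitting (univ.filter fun x => L ≤ (good A x (L ^ 2 * (2 * L))).card)
    (fun x => good A x (L ^ 2 * (2 * L))) id L hL (fun x hx => (mem_filter.1 hx).2) h N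
    ((card_le_univ _).trans hN)
  have hS3 := card_S3 (A := A) L (L ^ 2) (L ^ 2 * (2 * L))
  set S3 := univ.filter fun w => ∃ x, (good A x (L ^ 2 * (2 * L))).card < L ∧
    w ∈ good A x (L ^ 2 * (2 * L)) ∧ w ∉ good A x (L ^ 2) with hS3def
  refine ⟨S2 ∪ S3, (card_union_le _ _).trans (Nat.add_le_add hS2 ?_), ⟨?_⟩⟩
  · rw [Nat.le_div_iff_mul_le hL]
    have : (S3.card * L) * L ≤ Fintype.card V * L := by nlinarith
    exact Nat.le_of_mul_le_mul_right this hL
  have hle := fixS_le A (S2 ∪ S3)
  have hfix : ∀ x s, s ∈ S2 ∪ S3 → s ∈ good A x (L ^ 2 * (2 * L)) →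
      (orb (fixS A (S2 ∪ S3)) x).card ≤ 4 * L ^ 3 := by
    intro x s hs hs'
    rw [mem_good] at hs'
    have : orb (fixS A (S2 ∪ S3)) x ⊆ orb (fixS A {s}) x := by
      apply orb_mono
      intro g hg
      refine ⟨hg.1, fun t ht => ?_⟩
      rw [mem_singleton.1 ht]
      exact hg.2 s hs
    refine (card_le_card this).trans (hs'.trans ?_)
    nlinarith [Nat.zero_le (L ^ 3)]
  have hself : ∀ x Λ, 1 ≤ Λ → x ∈ good A x Λ := by
    intro x Λ hΛ
    rw [mem_good]
    refine le_trans (card_le_one.2 ?_) hΛ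
    intro a ha b hb
    obtain ⟨g, hg, rfl⟩ := mem_orb.1 ha
    obtain ⟨g', hg', rfl⟩ := mem_orb.1 hb
    rw [hg.2 x (mem_singleton_self x), hg'.2 x (mem_singleton_self x)]
  exact
  { Y := {y | (Cl G A y).card ≤ L ∧ ∀ z ∈ Cl G A y, 4 * L < (orb A z).card}
    C := Cl G A
    β := beta G A
    β_left := fun g hg x z => beta_left (hle hg) x z
    β_right := fun g hg x z => beta_right hA (hle hg) x z
    small := by
      intro x hx
      by_contra hbig
      rw [not_le] at hbig
      have hbig' : 4 * L ^ 3 < (orb A x).card := hbig.trans_le (card_le_card (orb_mono hle x))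
      have h1 : (good A x (L ^ 2 * (2 * L))).card < L := by
        by_contra h1
        rcases hS2' x (mem_filter.2 ⟨mem_univ _, not_lt.1 h1⟩) with h2 | ⟨s, hs, hs'⟩
        · exact absurd (hfix x x (mem_union_left _ h2) (hself x _ (Nat.one_le_iff_ne_zero.2
            (by positivity)))) (not_le.2 hbig)
        · exact absurd (hfix x s (mem_union_left _ hs) hs') (not_le.2 hbig)
      have h2 : ∀ w ∈ good A x (L ^ 2 * (2 * L)), w ∈ good A x (L ^ 2) := by
        intro w hw
        by_contra hw'
        exact absurd (hfix x w (mem_union_right _ (mem_filter.2 ⟨mem_univ _, x, h1, hw, hw'⟩)) hw)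
          (not_le.2 hbig)
      have h3 : ∀ s ∈ good A x (L ^ 2), 4 * L < (orb A s).card := by
        intro s hs
        rw [mem_good] at hs
        have h4 := orb_le_mul A x s
        by_contra h5
        rw [not_lt] at h5
        have h6 := Nat.mul_le_mul hs h5
        have : L ^ 2 * (4 * L) = 4 * L ^ 3 := by ring
        omega
      have h4 : ∀ z ∈ Cl G A x, z ∈ good A x (L ^ 2) := by
        intro z hz
        rw [mem_Cl] at hz
        induction hz with
        | refl => exact hself x _ (Nat.one_le_iff_ne_zero.2 (by positivity))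
        | @tail b c _ hc ih =>
          apply h2
          rw [mem_good]
          exact (step_good hA hn x b c (h3 b ih) hc).trans
            (Nat.mul_le_mul_right _ (mem_good.1 ih))
      apply hx
      refine ⟨le_trans (card_le_card ?_) h1.le, fun z hz => h3 z (h4 z hz)⟩
      intro z hz
      have := mem_good.1 (h4 z hz)
      rw [mem_good]
      refine this.trans ?_
      nlinarith [Nat.zero_le (L ^ 2)]
    self_mem := fun x _ => mem_Cl.2 Relation.ReflTransGen.refl
    card_le := fun x hx => hx.1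
    mem_Y := by
      intro x hx y hy
      have := Cl_eq hA hn hx.2 hy
      refine ⟨?_, ?_⟩
      · rw [this]; exact hx.1
      · rw [this]; exact hx.2
    C_eq := fun x hx y hy => Cl_eq hA hn hx.2 hy
    apply_Y := by
      intro x hx g hg
      have := Cl_apply hA (hle hg) x
      refine ⟨?_, ?_⟩
      · rw [this]; exact card_image_le.trans hx.1
      · rw [this]
        intro z hz
        obtain ⟨y, hy, rfl⟩ := mem_image.1 hz
        rw [orb_apply (hle hg)]
        exact hx.2 y hy
    C_apply := fun x _ g hg => Cl_apply hA (hle hg) x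
    adj := by
      intro x _ v hv
      by_contra hc
      exact hv (mem_Cl.2 (Relation.ReflTransGen.single (mem_Pc.2 hc))) }

omit [Fintype V] in
lemma fixS_fixS (A : Subgroup (Perm V)) (S T : Finset V) : fixS (fixS A S) T = fixS A (S ∪ T) := by
  ext g
  simp only [mem_fixS, mem_union]
  constructor
  · rintro ⟨⟨h1, h2⟩, h3⟩
    exact ⟨h1, fun s hs => hs.elim (h2 s) (h3 s)⟩
  · rintro ⟨h1, h2⟩
    exact ⟨⟨h1, fun s hs => h2 s (Or.inl hs)⟩, fun s hs => h2 s (Or.inr hs)⟩

theorem key (hA : Acts G A) {L M : ℕ} (hL : 0 < L) (hM : ∀ x, (orb A x).card ≤ M) (hM1 : 1 ≤ M)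
    (h : ℕ) :
    ∃ S : Finset V, S.card ≤ 2 * (h * (Fintype.card V / L + 1) + Fintype.card V * M / 2 ^ h) +
      Fintype.card V / L ∧ Nonempty (Pieces G (fixS A S) L) := by
  classical
  obtain ⟨S1, hS1, hS1'⟩ := hitting
    (univ.filter fun p : V × V => p.2 ∈ orb A p.1 ∧ L ≤ (dist2 G p.1 p.2).card)
    (fun p => dist2 G p.1 p.2) Prod.fst L hL (fun p hp => (mem_filter.1 hp).2.2) h
    (Fintype.card V * M) (by
      rw [mul_comm, ← card_univ]
      refine card_le_mul_card_image_of_maps_to (f := Prod.fst) (fun _ _ => mem_univ _) _ ?_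
      intro x _
      refine le_trans (card_le_card_of_injOn Prod.snd ?_ ?_) (hM x)
      · intro p hp
        simp only [coe_filter, mem_filter, mem_univ, true_and, Set.mem_ofPred_eq] at hp
        rw [← hp.2]
        exact hp.1.1
      · intro p hp q hq hpq
        simp only [coe_filter, mem_filter, mem_univ, true_and, Set.mem_ofPred_eq] at hp hq
        exact Prod.ext (hp.2.trans hq.2.symm) hpq)
  have hA1 : Acts G (fixS A S1) := fun g hg => hA g hg.1
  have hn : ∀ x, ∀ y ∈ orb (fixS A S1) x, (dist2 G x y).card ≤ L := by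
    intro x y hy
    by_contra hc
    obtain ⟨g, hg, rfl⟩ := mem_orb.1 hy
    rcases hS1' (x, g x) (mem_filter.2 ⟨mem_univ _, apply_mem_orb hg.1 x, (not_le.1 hc).le⟩) with
      h1 | ⟨s, hs, hs'⟩
    · apply hc
      have : dist2 G x (g x) = ∅ := by
        rw [hg.2 x h1]
        ext z
        simp [mem_dist2]
      rw [this]
      simp
    · apply mem_dist2.1 hs'
      have := hA g hg.1 x s
      rw [hg.2 s hs] at this
      exact this.symm
  obtain ⟨S, hS, hP⟩ := key2 hA1 hL hn h (Fintype.card V * M) (Nat.le_mul_of_pos_right _ hM1)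
  rw [fixS_fixS] at hP
  exact ⟨S1 ∪ S, (card_union_le _ _).trans (by omega), hP⟩

end Pool.Agent.H201Z.Tiny
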