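import Pool.Agent.H201Z.Tiny.B

/-! Clone systems: removing all but three copies of exchangeable pieces is reversible. -/

namespace Pool.Agent.H201Z.Tiny

open Finset Equiv

/-- a system of clones -/
structure Clones {V Col : Type} (G : SimpleGraph V) (χ : V → Col) where
  Z : Finset V
  k : V → ℕ
  cl : V → ℕ → V
  β : V → V → Prop
  three : ∀ x ∈ Z, 3 ≤ k x
  cl_zero : ∀ x ∈ Z, cl x 0 = x
  inj : ∀ x ∈ Z, ∀ y ∈ Z, ∀ i < k x, ∀ j < k y, cl x i = cl y j → x = y ∧ i = j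
  β_left : ∀ x ∈ Z, ∀ i < k x, ∀ v, β (cl x i) v ↔ β x v
  β_right : ∀ y ∈ Z, ∀ j < k y, ∀ u, β u (cl y j) ↔ β u y
  adj_out : ∀ x ∈ Z, ∀ i < k x, ∀ v, (∀ y ∈ Z, i < k y → cl y i ≠ v) →
    (G.Adj (cl x i) v ↔ β (cl x i) v)
  adj_in : ∀ x ∈ Z, ∀ y ∈ Z, ∀ i, i < k x → i < k y → (G.Adj (cl x i) (cl y i) ↔ G.Adj x y)
  col : ∀ x ∈ Z, ∀ i < k x, χ (cl x i) = χ x

namespace Clones

variable {V Col : Type} {G : SimpleGraph V} {χ : V → Col} (c : Clones G χ)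

/-- kept vertices -/
def U : Set V := {v | ∀ x ∈ c.Z, ∀ i, 3 ≤ i → i < c.k x → c.cl x i ≠ v}

open Classical in
/-- the marks -/
noncomputable def mark (v : V) : ℕ :=
  if v ∈ c.Z then c.k v else if ∃ x ∈ c.Z, c.cl x 1 = v then 1
    else if ∃ x ∈ c.Z, c.cl x 2 = v then 2 else 0

lemma mem_U {x : V} (hx : x ∈ c.Z) {i : ℕ} (hi : i < 3) : c.cl x i ∈ c.U := by
  intro y hy j hj hj' h
  have := c.three x hx
  have := (c.inj y hy x hx j hj' i (by omega) h).2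
  omega

lemma Z_mem_U {x : V} (hx : x ∈ c.Z) : x ∈ c.U := by
  have := c.mem_U hx (i := 0) (by omega)
  rwa [c.cl_zero x hx] at this

lemma not_mem_Z {x : V} (hx : x ∈ c.Z) {i : ℕ} (hi : i < c.k x) (h0 : i ≠ 0) : c.cl x i ∉ c.Z := by
  intro h
  have h3 := c.three _ h
  have := (c.inj x hx _ h i hi 0 (by omega) (c.cl_zero _ h).symm).2
  exact h0 this

lemma mark_Z {x : V} (hx : x ∈ c.Z) : c.mark x = c.k x := by simp [mark, hx]

lemma mark_ge {v : V} (h : 3 ≤ c.mark v) : v ∈ c.Z := by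
  by_contra hv
  unfold mark at h
  rw [if_neg hv] at h
  split_ifs at h <;> omega

lemma mark_one {v : V} : c.mark v = 1 ↔ ∃ x ∈ c.Z, c.cl x 1 = v := by
  constructor
  · intro h
    unfold mark at h
    split_ifs at h with h1 h2 h3
    · have := c.three v h1
      omega
    · exact h2
    · omega
  · rintro ⟨x, hx, rfl⟩
    have h3 := c.three x hx
    unfold mark
    rw [if_neg (c.not_mem_Z hx (by omega) (by omega)), if_pos ⟨x, hx, rfl⟩]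

lemma mark_two {v : V} : c.mark v = 2 ↔ ∃ x ∈ c.Z, c.cl x 2 = v := by
  constructor
  · intro h
    unfold mark at h
    split_ifs at h with h1 h2 h3
    · have := c.three v h1
      omega
    · omega
    · exact h3
  · rintro ⟨x, hx, rfl⟩
    have h3 := c.three x hx
    unfold mark
    rw [if_neg (c.not_mem_Z hx (by omega) (by omega)), if_neg, if_pos ⟨x, hx, rfl⟩]
    rintro ⟨y, hy, h⟩
    have h4 := c.three y hy
    have := (c.inj y hy x hx 1 (by omega) 2 (by omega) h).2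
    omega

/-- adjacency of different copies -/
lemma adj_ne {x y : V} (hx : x ∈ c.Z) (hy : y ∈ c.Z) {i j : ℕ} (hi : i < c.k x) (hj : j < c.k y)
    (hij : i ≠ j) : G.Adj (c.cl x i) (c.cl y j) ↔ c.β x y := by
  rw [c.adj_out x hx i hi, c.β_left x hx i hi, c.β_right y hy j hj]
  intro z hz hz' h
  exact hij (c.inj z hz y hy i hz' j hj h).2

lemma adj_Z {x v : V} (hx : x ∈ c.Z) (hv : v ∉ c.Z) : G.Adj x v ↔ c.β x v := by
  have h3 := c.three x hx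
  have := c.adj_out x hx 0 (by omega) v (by
    intro y hy _ h
    rw [c.cl_zero y hy] at h
    exact hv (h ▸ hy))
  rwa [c.cl_zero x hx] at this

lemma adj_removed {x v : V} (hx : x ∈ c.Z) {i : ℕ} (h3 : 3 ≤ i) (hi : i < c.k x) (hv : v ∈ c.U) :
    G.Adj (c.cl x i) v ↔ c.β x v := by
  rw [c.adj_out x hx i hi v (fun y hy hy' => hv y hy i h3 hy'), c.β_left x hx i hi]

end Clones

theorem decode {V W Col : Type} {G : SimpleGraph V} {χ : V → Col} (c : Clones G χ)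
    {H : SimpleGraph W} {ξ : W → Col} (d : Clones H ξ) (ψ : V → W)
    (hU : ∀ v ∈ c.U, ψ v ∈ d.U) (hinj : ∀ u ∈ c.U, ∀ v ∈ c.U, ψ u = ψ v → u = v)
    (hsurj : ∀ w ∈ d.U, ∃ v ∈ c.U, ψ v = w)
    (hadj : ∀ u ∈ c.U, ∀ v ∈ c.U, (H.Adj (ψ u) (ψ v) ↔ G.Adj u v))
    (hcol : ∀ v ∈ c.U, ξ (ψ v) = χ v) (hmark : ∀ v ∈ c.U, d.mark (ψ v) = c.mark v) :
    ∃ Ψ : V ≃ W, (∀ u v, H.Adj (Ψ u) (Ψ v) ↔ G.Adj u v) ∧ (∀ v, ξ (Ψ v) = χ v) ∧
      ∀ v ∈ c.U, Ψ v = ψ v := by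
  classical
  have hZ : ∀ x ∈ c.Z, ψ x ∈ d.Z ∧ d.k (ψ x) = c.k x := by
    intro x hx
    have h1 := hmark x (c.Z_mem_U hx)
    rw [c.mark_Z hx] at h1
    have h2 : ψ x ∈ d.Z := d.mark_ge (h1 ▸ c.three x hx)
    exact ⟨h2, by rw [← d.mark_Z h2, h1]⟩
  have hZ' : ∀ v ∈ c.U, ψ v ∈ d.Z → v ∈ c.Z := by
    intro v hv h
    apply c.mark_ge
    rw [← hmark v hv, d.mark_Z h]
    exact d.three _ h
  have hβ : ∀ x ∈ c.Z, ∀ y ∈ c.Z, (d.β (ψ x) (ψ y) ↔ c.β x y) := by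
    intro x hx y hy
    have x3 := c.three x hx
    have y3 := c.three y hy
    obtain ⟨hx', hkx⟩ := hZ x hx
    obtain ⟨hy', hky⟩ := hZ y hy
    have hy1 : c.cl y 1 ∈ c.U := c.mem_U hy (by omega)
    obtain ⟨w, hw, hw'⟩ := d.mark_one.1 ((hmark _ hy1).trans (c.mark_one.2 ⟨y, hy, rfl⟩))
    have w3 := d.three w hw
    obtain ⟨u, hu, hu'⟩ := hsurj _ (d.mem_U hx' (i := 2) (by omega))
    obtain ⟨z, hz, rfl⟩ := c.mark_two.1 ((hmark _ hu).symm.trans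
      (d.mark_two.2 ⟨ψ x, hx', hu'.symm⟩))
    have z3 := c.three z hz
    have e1 : G.Adj (c.cl z 2) (c.cl y 0) ↔ c.β z y :=
      c.adj_ne hz hy (by omega) (by omega) (by omega)
    have e2 : G.Adj (c.cl z 2) (c.cl y 1) ↔ c.β z y :=
      c.adj_ne hz hy (by omega) (by omega) (by omega)
    have e3 : G.Adj (c.cl x 0) (c.cl y 1) ↔ c.β x y :=
      c.adj_ne hx hy (by omega) (by omega) (by omega)
    have f1 : H.Adj (d.cl (ψ x) 2) (d.cl (ψ y) 0) ↔ d.β (ψ x) (ψ y) :=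
      d.adj_ne hx' hy' (by omega) (by omega) (by omega)
    have f2 : H.Adj (d.cl (ψ x) 2) (d.cl w 1) ↔ d.β (ψ x) w :=
      d.adj_ne hx' hw (by omega) (by omega) (by omega)
    have f3 : H.Adj (d.cl (ψ x) 0) (d.cl w 1) ↔ d.β (ψ x) w :=
      d.adj_ne hx' hw (by omega) (by omega) (by omega)
    rw [c.cl_zero y hy] at e1
    rw [c.cl_zero x hx] at e3
    rw [d.cl_zero _ hy', ← hu'] at f1
    rw [← hu', hw'] at f2
    rw [d.cl_zero _ hx', hw'] at f3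
    rw [hadj _ hu _ (c.Z_mem_U hy)] at f1
    rw [hadj _ hu _ hy1] at f2
    rw [hadj _ (c.Z_mem_U hx) _ hy1] at f3
    tauto
  have hex : ∀ v, ∃ p : V × ℕ, v ∉ c.U → p.1 ∈ c.Z ∧ 3 ≤ p.2 ∧ p.2 < c.k p.1 ∧ c.cl p.1 p.2 = v := by
    intro v
    by_cases hv : v ∈ c.U
    · exact ⟨(v, 0), fun h => absurd hv h⟩
    · simp only [Clones.U, Set.mem_ofPred_eq, not_forall, not_not] at hv
      obtain ⟨x, hx, i, hi, hi', h⟩ := hv
      exact ⟨(x, i), fun _ => ⟨hx, hi, hi', h⟩⟩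
  choose p hp using hex
  let Φ : V → W := fun v => if v ∈ c.U then ψ v else d.cl (ψ (p v).1) (p v).2
  have hΦU : ∀ v ∈ c.U, Φ v = ψ v := fun v hv => if_pos hv
  have hΦ : ∀ x ∈ c.Z, ∀ i, 3 ≤ i → i < c.k x → Φ (c.cl x i) = d.cl (ψ x) i := by
    intro x hx i h3 hi
    have hn : c.cl x i ∉ c.U := fun h => h x hx i h3 hi rfl
    obtain ⟨h1, -, h2, h4⟩ := hp _ hn
    obtain ⟨h5, h6⟩ := c.inj _ h1 x hx _ h2 i hi h4
    show (if c.cl x i ∈ c.U then _ else _) = _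
    rw [if_neg hn, h5, h6]
  have hcases : ∀ v, v ∈ c.U ∨ ∃ x ∈ c.Z, ∃ i, 3 ≤ i ∧ i < c.k x ∧ c.cl x i = v := by
    intro v
    by_cases hv : v ∈ c.U
    · exact Or.inl hv
    · obtain ⟨h1, h2, h3, h4⟩ := hp v hv
      exact Or.inr ⟨_, h1, _, h2, h3, h4⟩
  have hbij : Function.Bijective Φ := by
    constructor
    · intro u v huv
      rcases hcases u with hu | ⟨x, hx, i, h3, hi, rfl⟩ <;>
        rcases hcases v with hv | ⟨y, hy, j, h3', hj, rfl⟩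
      · rw [hΦU u hu, hΦU v hv] at huv
        exact hinj u hu v hv huv
      · rw [hΦU u hu, hΦ y hy j h3' hj] at huv
        exact absurd huv.symm (hU u hu _ (hZ y hy).1 j h3' ((hZ y hy).2 ▸ hj))
      · rw [hΦU v hv, hΦ x hx i h3 hi] at huv
        exact absurd huv (hU v hv _ (hZ x hx).1 i h3 ((hZ x hx).2 ▸ hi))
      · rw [hΦ x hx i h3 hi, hΦ y hy j h3' hj] at huv
        obtain ⟨h1, h2⟩ := d.inj _ (hZ x hx).1 _ (hZ y hy).1 i ((hZ x hx).2 ▸ hi) j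
          ((hZ y hy).2 ▸ hj) huv
        rw [hinj x (c.Z_mem_U hx) y (c.Z_mem_U hy) h1, h2]
    · intro w
      by_cases hw : w ∈ d.U
      · obtain ⟨v, hv, rfl⟩ := hsurj w hw
        exact ⟨v, hΦU v hv⟩
      · simp only [Clones.U, Set.mem_ofPred_eq, not_forall, not_not] at hw
        obtain ⟨y, hy, i, hi, hi', rfl⟩ := hw
        obtain ⟨x, hx, rfl⟩ := hsurj y (d.Z_mem_U hy)
        have hx' := hZ' x hx hy
        exact ⟨c.cl x i, hΦ x hx' i hi ((hZ x hx').2 ▸ hi')⟩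
  have hmix : ∀ x ∈ c.Z, ∀ i, 3 ≤ i → i < c.k x → ∀ v ∈ c.U,
      (H.Adj (Φ (c.cl x i)) (Φ v) ↔ G.Adj (c.cl x i) v) := by
    intro x hx i h3 hi v hv
    rw [hΦ x hx i h3 hi, hΦU v hv, c.adj_removed hx h3 hi hv,
      d.adj_removed (hZ x hx).1 h3 ((hZ x hx).2 ▸ hi) (hU v hv)]
    by_cases hvZ : v ∈ c.Z
    · exact hβ x hx v hvZ
    · rw [← c.adj_Z hx hvZ, ← d.adj_Z (hZ x hx).1 (fun h => hvZ (hZ' v hv h))]
      exact hadj x (c.Z_mem_U hx) v hv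
  refine ⟨Equiv.ofBijective Φ hbij, ?_, ?_, hΦU⟩
  · intro u v
    simp only [ofBijective_apply]
    rcases hcases u with hu | ⟨x, hx, i, h3, hi, rfl⟩ <;>
      rcases hcases v with hv | ⟨y, hy, j, h3', hj, rfl⟩
    · rw [hΦU u hu, hΦU v hv]
      exact hadj u hu v hv
    · rw [H.adj_comm, G.adj_comm]
      exact hmix y hy j h3' hj u hu
    · exact hmix x hx i h3 hi v hv
    · rw [hΦ x hx i h3 hi, hΦ y hy j h3' hj]
      by_cases hij : i = j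
      · subst hij
        rw [c.adj_in x hx y hy i hi hj,
          d.adj_in _ (hZ x hx).1 _ (hZ y hy).1 i ((hZ x hx).2 ▸ hi) ((hZ y hy).2 ▸ hj)]
        exact hadj x (c.Z_mem_U hx) y (c.Z_mem_U hy)
      · rw [c.adj_ne hx hy hi hj hij,
          d.adj_ne (hZ x hx).1 (hZ y hy).1 ((hZ x hx).2 ▸ hi) ((hZ y hy).2 ▸ hj) hij]
        exact hβ x hx y hy
  · intro v
    simp only [ofBijective_apply]
    rcases hcases v with hv | ⟨x, hx, i, h3, hi, rfl⟩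
    · rw [hΦU v hv]
      exact hcol v hv
    · rw [hΦ x hx i h3 hi, c.col x hx i hi, d.col _ (hZ x hx).1 i ((hZ x hx).2 ▸ hi)]
      exact hcol x (c.Z_mem_U hx)

end Pool.Agent.H201Z.Tiny
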