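import Pool.Agent.H201Z.Tiny.C

/-! Existence of a clone system after which all orbits are short. -/

namespace Pool.Agent.H201Z.Tiny

open Finset Equiv

variable {V : Type} [Fintype V] [DecidableEq V]

open Classical in
/-- orbit of a finite set -/
noncomputable def Orb (A : Subgroup (Perm V)) (K : Finset V) : Finset (Finset V) :=
  univ.filter fun K' => ∃ g ∈ A, K.image g = K'

lemma mem_Orb {A : Subgroup (Perm V)} {K K' : Finset V} :
    K' ∈ Orb A K ↔ ∃ g ∈ A, K.image g = K' := by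
  simp only [Orb, mem_filter, mem_univ, true_and]

lemma Orb_eq {A : Subgroup (Perm V)} {K K' : Finset V} (h : K' ∈ Orb A K) :
    Orb A K' = Orb A K := by
  obtain ⟨g, hg, rfl⟩ := mem_Orb.1 h
  ext T
  simp only [mem_Orb]
  constructor
  · rintro ⟨h, hh, rfl⟩
    exact ⟨h * g, A.mul_mem hh hg, by rw [image_image]; rfl⟩
  · rintro ⟨h, hh, rfl⟩
    refine ⟨h * g⁻¹, A.mul_mem hh (A.inv_mem hg), ?_⟩
    rw [image_image]
    congr 1
    ext x
    simp

lemma self_mem_Orb (A : Subgroup (Perm V)) (K : Finset V) : K ∈ Orb A K :=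
  mem_Orb.2 ⟨1, A.one_mem, by simp⟩

lemma exists_enum {α : Type} [Inhabited α] : ∃ en : Finset α → ℕ → α,
    (∀ O i, i < O.card → en O i ∈ O) ∧
    (∀ O i j, i < O.card → j < O.card → en O i = en O j → i = j) ∧
    (∀ O, ∀ a ∈ O, ∃ i < O.card, en O i = a) := by
  classical
  refine ⟨fun O i => if h : i < O.card then (O.equivFin.symm ⟨i, h⟩ : α) else default, ?_, ?_, ?_⟩
  · intro O i hi
    simp only [dif_pos hi]
    exact (O.equivFin.symm ⟨i, hi⟩).2
  · intro O i j hi hj h
    simp only [dif_pos hi, dif_pos hj] at h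
    have := O.equivFin.symm.injective (Subtype.ext h)
    simpa using this
  · intro O a ha
    refine ⟨(O.equivFin ⟨a, ha⟩).1, (O.equivFin ⟨a, ha⟩).2, ?_⟩
    simp only [dif_pos (O.equivFin ⟨a, ha⟩).2]
    simp

open Classical in
theorem exists_clones {G : SimpleGraph V} {A : Subgroup (Perm V)} (hA : Acts G A) {Col : Type}
    {χ : V → Col} (hχ : ∀ g ∈ A, ∀ v, χ (g v) = χ v) {L M : ℕ} (hL : 3 ≤ L)
    (hM : ∀ x, (orb A x).card ≤ M) (P : Pieces G A L) :
    ∃ c : Clones G χ, L * c.Z.card ≤ Fintype.card V ∧ (∀ x ∈ c.Z, c.k x ≤ M) ∧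
      ∀ x, ((orb A x).filter fun y => y ∈ c.U).card ≤ 4 * L ^ 3 := by
  obtain ⟨en, en1, en2, en3⟩ := exists_enum (α := Finset V)
  have hg : ∀ (K : Finset V) (i : ℕ), ∃ g : Perm V, g ∈ A ∧ (i = 0 → g = 1) ∧
      (K = en (Orb A K) 0 → i < (Orb A K).card → K.image g = en (Orb A K) i) := by
    intro K i
    by_cases h0 : i = 0
    · subst h0
      exact ⟨1, A.one_mem, fun _ => rfl, fun h _ => by simpa using h⟩
    · by_cases hi : i < (Orb A K).card
      · obtain ⟨g, hg, h⟩ := mem_Orb.1 (en1 _ i hi)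
        exact ⟨g, hg, fun h => absurd h h0, fun _ _ => h⟩
      · exact ⟨1, A.one_mem, fun _ => rfl, fun _ h => absurd h hi⟩
  choose gg gA g0 gim using hg
  set Z : Finset V := univ.filter fun x => x ∈ P.Y ∧ L ≤ (Orb A (P.C x)).card ∧
    P.C x = en (Orb A (P.C x)) 0 with hZdef
  have hZ : ∀ x, x ∈ Z ↔ x ∈ P.Y ∧ L ≤ (Orb A (P.C x)).card ∧
      P.C x = en (Orb A (P.C x)) 0 := by
    intro x
    simp only [hZdef, mem_filter, mem_univ, true_and]
  have hC : ∀ x ∈ Z, ∀ i < (Orb A (P.C x)).card,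
      P.C (gg (P.C x) i x) = en (Orb A (P.C x)) i := by
    intro x hx i hi
    obtain ⟨h1, -, h3⟩ := (hZ x).1 hx
    rw [P.C_apply x h1 _ (gA _ _), gim _ _ h3 hi]
  have hCC : ∀ x ∈ Z, ∀ y ∈ Z, ∀ i < (Orb A (P.C x)).card, ∀ j < (Orb A (P.C y)).card,
      P.C (gg (P.C x) i x) = P.C (gg (P.C y) j y) → P.C x = P.C y ∧ i = j := by
    intro x hx y hy i hi j hj h
    rw [hC x hx i hi, hC y hy j hj] at h
    have h1 := Orb_eq (en1 _ i hi)
    have h2 := Orb_eq (en1 _ j hj)
    have h3 : Orb A (P.C x) = Orb A (P.C y) := by rw [← h1, h, h2]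
    refine ⟨?_, ?_⟩
    · rw [((hZ x).1 hx).2.2, h3, ← ((hZ y).1 hy).2.2]
    · rw [← h3] at h hj
      exact en2 _ i j hi hj h
  have hZC : ∀ x ∈ Z, ∀ y ∈ P.C x, y ∈ Z ∧ P.C y = P.C x := by
    intro x hx y hy
    obtain ⟨h1, h2, h3⟩ := (hZ x).1 hx
    have h4 := P.C_eq x h1 y hy
    refine ⟨(hZ y).2 ⟨P.mem_Y x h1 y hy, ?_, ?_⟩, h4⟩
    · rw [h4]; exact h2
    · rw [h4]; exact h3
  let c : Clones G χ :=
  { Z := Z
    k := fun x => (Orb A (P.C x)).card
    cl := fun x i => gg (P.C x) i x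
    β := P.β
    three := fun x hx => hL.trans ((hZ x).1 hx).2.1
    cl_zero := fun x _ => by rw [g0 _ _ rfl]; rfl
    inj := by
      intro x hx y hy i hi j hj h
      obtain ⟨h1, h2⟩ := hCC x hx y hy i hi j hj (congrArg P.C h)
      subst h2
      rw [h1] at h
      exact ⟨(gg (P.C y) i).injective h, rfl⟩
    β_left := fun x _ i _ v => P.β_left _ (gA _ _) x v
    β_right := fun y _ j _ u => P.β_right _ (gA _ _) u y
    adj_out := by
      intro x hx i hi v hv
      have hxY := ((hZ x).1 hx).1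
      apply P.adj _ (P.apply_Y x hxY _ (gA _ _))
      rw [P.C_apply x hxY _ (gA _ _)]
      intro h
      obtain ⟨y, hy, rfl⟩ := mem_image.1 h
      obtain ⟨h1, h2⟩ := hZC x hx y hy
      exact hv y h1 (by rw [h2]; exact hi) (by rw [h2])
    adj_in := by
      intro x hx y hy i hi hj
      by_cases h : P.C x = P.C y
      · rw [← h]
        exact hA _ (gA _ _) x y
      · have hxY := ((hZ x).1 hx).1
        have hyY := ((hZ y).1 hy).1
        have h1 : y ∉ P.C x := fun h' => h (P.C_eq x hxY y h').symm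
        have h2 : gg (P.C y) i y ∉ P.C (gg (P.C x) i x) := fun h' =>
          h (hCC x hx y hy i hi i hj (P.C_eq _ (P.apply_Y x hxY _ (gA _ _)) _ h').symm).1
        rw [P.adj x hxY y h1, P.adj _ (P.apply_Y x hxY _ (gA _ _)) _ h2,
          P.β_left _ (gA _ _), P.β_right _ (gA _ _)]
    col := fun x _ i _ => hχ _ (gA _ _) x }
  refine ⟨c, ?_, ?_, ?_⟩
  · have : (range L ×ˢ Z).card ≤ (univ : Finset V).card := by
      refine card_le_card_of_injOn (fun p => c.cl p.2 p.1) (fun _ _ => mem_coe.2 (mem_univ _)) ?_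
      intro p hp q hq h
      simp only [coe_product, Set.mem_prod, mem_coe, mem_range] at hp hq
      obtain ⟨h1, h2⟩ := c.inj _ hp.2 _ hq.2 _ (hp.1.trans_le ((hZ _).1 hp.2).2.1) _
        (hq.1.trans_le ((hZ _).1 hq.2).2.1) h
      exact Prod.ext h2 h1
    simpa using this
  · intro x hx
    refine le_trans ?_ (hM x)
    refine le_trans (card_le_card ?_) (card_image_le (f := P.C))
    intro K hK
    obtain ⟨g, hg, rfl⟩ := mem_Orb.1 hK
    exact mem_image.2 ⟨g x, apply_mem_orb hg x, P.C_apply x ((hZ x).1 hx).1 g hg⟩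
  · intro x
    by_cases hx : x ∈ P.Y
    swap
    · exact (card_filter_le _ _).trans (P.small x hx)
    have hcard : ∀ K ∈ Orb A (P.C x), K.card ≤ L := by
      intro K hK
      obtain ⟨g, hg, rfl⟩ := mem_Orb.1 hK
      exact card_image_le.trans (P.card_le x hx)
    have hmem : ∀ y ∈ orb A x, y ∈ P.Y ∧ P.C y ∈ Orb A (P.C x) := by
      intro y hy
      obtain ⟨g, hg, rfl⟩ := mem_orb.1 hy
      exact ⟨P.apply_Y x hx g hg, mem_Orb.2 ⟨g, hg, (P.C_apply x hx g hg).symm⟩⟩
    by_cases hO : L ≤ (Orb A (P.C x)).card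
    · have hsub : ((orb A x).filter fun y => y ∈ c.U) ⊆
          (range 3).biUnion fun i => en (Orb A (P.C x)) i := by
        intro y hy
        obtain ⟨hy, hyU⟩ := mem_filter.1 hy
        obtain ⟨hyY, hyO⟩ := hmem y hy
        obtain ⟨i, hi, hi'⟩ := en3 _ _ hyO
        refine mem_biUnion.2 ⟨i, mem_range.2 ?_, hi' ▸ P.self_mem y hyY⟩
        by_contra h3
        have h0 : en (Orb A (P.C x)) 0 ∈ Orb A (P.C x) := en1 _ 0 (by omega)
        have hO0 := Orb_eq h0
        have h1 := gim (en (Orb A (P.C x)) 0) i (by rw [hO0]) (by rw [hO0]; exact hi)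
        rw [hO0, hi'] at h1
        have h2 := P.self_mem y hyY
        rw [← h1] at h2
        obtain ⟨z, hz, hz'⟩ := mem_image.1 h2
        obtain ⟨g, hg, hg'⟩ := mem_Orb.1 h0
        have h4 : P.C (g x) = en (Orb A (P.C x)) 0 := by rw [P.C_apply x hx g hg, hg']
        have h5 : z ∈ P.C (g x) := h4 ▸ hz
        have h6 : P.C z = en (Orb A (P.C x)) 0 :=
          (P.C_eq _ (P.apply_Y x hx g hg) z h5).trans h4
        have h7 : z ∈ Z := (hZ z).2 ⟨P.mem_Y _ (P.apply_Y x hx g hg) z h5,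
          by rw [h6, hO0]; exact hO, by rw [h6, hO0]⟩
        refine hyU z h7 i (not_lt.1 h3) ?_ ?_
        · show i < (Orb A (P.C z)).card
          rw [h6, hO0]
          exact hi
        · show gg (P.C z) i z = y
          rw [h6]
          exact hz'
      refine (card_le_card hsub).trans (card_biUnion_le.trans ?_)
      refine (sum_le_card_nsmul _ _ L ?_).trans ?_
      · intro i hi
        exact hcard _ (en1 _ i (by have := mem_range.1 hi; omega))
      · simp only [card_range, smul_eq_mul]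
        nlinarith [Nat.pow_le_pow_left hL 2]
    · have hsub : orb A x ⊆ (Orb A (P.C x)).biUnion id := by
        intro y hy
        obtain ⟨hyY, hyO⟩ := hmem y hy
        exact mem_biUnion.2 ⟨_, hyO, P.self_mem y hyY⟩
      refine (card_filter_le _ _).trans ((card_le_card hsub).trans (card_biUnion_le.trans ?_))
      refine (sum_le_card_nsmul _ _ L hcard).trans ?_
      rw [smul_eq_mul]
      have h1 : (Orb A (P.C x)).card * L ≤ L * L := Nat.mul_le_mul_right _ (not_le.1 hO).le
      nlinarith [Nat.zero_le (L * L)]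

end Pool.Agent.H201Z.Tiny
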