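import Pool.Agent.H201Z.Tiny.D

/-! Coloured graphs, classes, marking and the base count. -/

namespace Pool.Agent.H201Z.Tiny

open Finset Equiv

/-- coloured graphs -/
structure CG (Col : Type) where
  m : ℕ
  G : SimpleGraph (Fin m)
  χ : Fin m → Col

variable {Col : Type}

/-- isomorphism of coloured graphs -/
def CG.Iso (X Y : CG Col) : Prop :=
  ∃ e : Fin X.m ≃ Fin Y.m, (∀ u v, Y.G.Adj (e u) (e v) ↔ X.G.Adj u v) ∧ ∀ v, Y.χ (e v) = X.χ v

/-- automorphism group -/
def CG.Aut (X : CG Col) : Subgroup (Perm (Fin X.m)) where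
  carrier := {g | (∀ u v, X.G.Adj (g u) (g v) ↔ X.G.Adj u v) ∧ ∀ v, X.χ (g v) = X.χ v}
  mul_mem' := by
    rintro g h ⟨hg, hg'⟩ ⟨hh, hh'⟩
    refine ⟨fun u v => ?_, fun v => ?_⟩
    · simp [hg, hh]
    · simp [hg', hh']
  one_mem' := ⟨fun _ _ => Iff.rfl, fun _ => rfl⟩
  inv_mem' := by
    rintro g ⟨hg, hg'⟩
    refine ⟨fun u v => ?_, fun v => ?_⟩
    · rw [← hg]; simp
    · rw [← hg']; simp

/-- all orbits are short -/
def CG.OrbLe (X : CG Col) (M : ℕ) : Prop := ∀ x, (orb X.Aut x).card ≤ M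

/-- hereditary classes -/
def Hered (P : CG Col → Prop) : Prop :=
  ∀ X, P X → ∀ (m : ℕ) (f : Fin m ↪ Fin X.m), P ⟨m, X.G.comap f, fun v => X.χ (f v)⟩

/-- few labelled members -/
def Few (P : CG Col → Prop) (n : ℕ) (B : ℝ) : Prop :=
  ∀ m ≤ n, ∃ T : Finset (SimpleGraph (Fin m) × (Fin m → Col)),
    (T.card : ℝ) ≤ m.factorial * B ∧ ∀ G χ, P ⟨m, G, χ⟩ → (G, χ) ∈ T

/-- the class with sparse marks -/
def Mark (P : CG Col → Prop) (M t : ℕ) (X : CG (Col × ℕ)) : Prop :=
  P ⟨X.m, X.G, fun v => (X.χ v).1⟩ ∧ (∀ v, (X.χ v).2 ≤ M) ∧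
    (univ.filter fun v => (X.χ v).2 ≠ 0).card ≤ t

lemma Hered.mark {P : CG Col → Prop} (hP : Hered P) (M t : ℕ) : Hered (Mark P M t) := by
  rintro X ⟨h1, h2, h3⟩ m f
  refine ⟨hP _ h1 m f, fun v => h2 _, le_trans ?_ h3⟩
  refine card_le_card_of_injOn f ?_ (fun _ _ _ _ h => f.injective h)
  intro v hv
  simpa using hv

lemma card_marks (m M t : ℕ) (x : ℝ) (hx : 0 < x) (hx1 : x ≤ 1) :
    (((Fintype.piFinset fun _ : Fin m => range (M + 1)).filter
      fun μ => (univ.filter fun v => μ v ≠ 0).card ≤ t).card : ℝ) * x ^ t ≤ (1 + M * x) ^ m := by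
  have h1 : ∑ a ∈ range (M + 1), (if a = 0 then (1 : ℝ) else x) = 1 + M * x := by
    rw [sum_range_succ']
    simp [add_comm]
  have h2 : (1 + M * x) ^ m = ∑ μ ∈ Fintype.piFinset fun _ : Fin m => range (M + 1),
      ∏ v, (if μ v = 0 then (1 : ℝ) else x) := by
    rw [← prod_univ_sum (fun _ : Fin m => range (M + 1))
      (fun _ a => if a = 0 then (1 : ℝ) else x)]
    simp [h1]
  rw [h2, ← nsmul_eq_mul]
  refine le_trans (card_nsmul_le_sum _ (fun μ => ∏ v, (if μ v = 0 then (1 : ℝ) else x)) _ ?_)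
    (sum_le_sum_of_subset_of_nonneg (filter_subset _ _) ?_)
  · intro μ hμ
    have h3 := (mem_filter.1 hμ).2
    rw [prod_ite, prod_const_one, one_mul, prod_const]
    exact pow_le_pow_of_le_one hx.le hx1 h3
  · intro μ _ _
    apply prod_nonneg
    intro v _
    split_ifs <;> positivity

lemma Few.mark {P : CG Col → Prop} {n : ℕ} {B : ℝ} (hB : 0 ≤ B) (hP : Few P n B) (M t : ℕ)
    (x : ℝ) (hx : 0 < x) (hx1 : x ≤ 1) : Few (Mark P M t) n (B * ((1 + M * x) ^ n / x ^ t)) := by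
  classical
  intro m hm
  obtain ⟨T, hT, hT'⟩ := hP m hm
  set K := (Fintype.piFinset fun _ : Fin m => range (M + 1)).filter
      fun μ => (univ.filter fun v => μ v ≠ 0).card ≤ t
  refine ⟨(T ×ˢ K).image fun p => (p.1.1, fun v => (p.1.2 v, p.2 v)), ?_, ?_⟩
  · have h1 : (((T ×ˢ K).image fun p => (p.1.1, fun v => (p.1.2 v, p.2 v))).card : ℝ) ≤
        T.card * K.card := by
      have := (card_image_le (s := T ×ˢ K) (f := fun p => (p.1.1, fun v => (p.1.2 v, p.2 v))))
      rw [card_product] at this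
      exact_mod_cast this
    have h2 : (K.card : ℝ) ≤ (1 + M * x) ^ n / x ^ t := by
      rw [le_div_iff₀ (by positivity)]
      refine (card_marks m M t x hx hx1).trans (pow_le_pow_right₀ ?_ hm)
      have : 0 ≤ M * x := by positivity
      linarith
    refine h1.trans ?_
    rw [← mul_assoc]
    exact mul_le_mul hT h2 (by positivity) (by positivity)
  · rintro G χ ⟨h1, h2, h3⟩
    refine mem_image.2 ⟨((G, fun v => (χ v).1), fun v => (χ v).2), mem_product.2 ⟨hT' _ _ h1, ?_⟩,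
      rfl⟩
    refine mem_filter.2 ⟨Fintype.mem_piFinset.2 fun v => mem_range.2 ?_, h3⟩
    exact Nat.lt_succ_of_le (h2 v)

open Classical in
lemma card_aut (X : CG Col) {M : ℕ} (h : X.OrbLe M) :
    (univ.filter fun g : Perm (Fin X.m) => g ∈ X.Aut).card ≤ M ^ X.m := by
  have h1 : (univ.filter fun g : Perm (Fin X.m) => g ∈ X.Aut).card ≤
      (Fintype.piFinset fun v => orb X.Aut v).card := by
    refine card_le_card_of_injOn (fun g => ⇑g) ?_ ?_
    · intro g hg
      simp only [coe_filter, mem_univ, true_and, Set.mem_ofPred_eq] at hg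
      exact mem_coe.2 (Fintype.mem_piFinset.2 fun v => apply_mem_orb hg v)
    · intro g _ g' _ h
      exact DFunLike.coe_injective h
  refine h1.trans ?_
  rw [Fintype.card_piFinset]
  refine (prod_le_pow_card _ _ M fun v _ => h v).trans ?_
  simp

lemma base_fixed {P : CG Col → Prop} (hH : Hered P) {n : ℕ} {B : ℝ} (hP : Few P n B) {M m : ℕ}
    (hm : m ≤ n) {κ : Type} [Fintype κ] (g : κ → SimpleGraph (Fin m) × (Fin m → Col))
    (h1 : ∀ i, P ⟨m, (g i).1, (g i).2⟩) (h2 : ∀ i, CG.OrbLe ⟨m, (g i).1, (g i).2⟩ M)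
    (h3 : ∀ i j, CG.Iso ⟨m, (g i).1, (g i).2⟩ ⟨m, (g j).1, (g j).2⟩ → i = j) :
    (Fintype.card κ : ℝ) ≤ B * M ^ m := by
  classical
  obtain ⟨T, hT, hT'⟩ := hP m hm
  have key : (univ : Finset (κ × Perm (Fin m))).card ≤ M ^ m * T.card := by
    refine card_le_mul_card_image_of_maps_to
      (f := fun p => ((g p.1).1.comap p.2, fun v => (g p.1).2 (p.2 v))) ?_ _ ?_
    · intro p _
      exact hT' _ _ (hH _ (h1 p.1) m p.2.toEmbedding)
    · intro b _
      rcases (univ.filter fun p : κ × Perm (Fin m) =>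
        ((g p.1).1.comap p.2, fun v => (g p.1).2 (p.2 v)) = b).eq_empty_or_nonempty with h | ⟨p, hp⟩
      · rw [h]; simp
      have hp := (mem_filter.1 hp).2
      have hq : ∀ q : κ × Perm (Fin m),
          ((g q.1).1.comap q.2, fun v => (g q.1).2 (q.2 v)) = b →
          (∀ u v, (g p.1).1.Adj ((p.2 * q.2⁻¹) u) ((p.2 * q.2⁻¹) v) ↔ (g q.1).1.Adj u v) ∧
            ∀ v, (g p.1).2 ((p.2 * q.2⁻¹) v) = (g q.1).2 v := by
        intro q hq
        rw [← hp, Prod.mk.injEq] at hq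
        refine ⟨fun u v => ?_, fun v => ?_⟩
        · have := congrArg (fun H : SimpleGraph (Fin m) => H.Adj (q.2⁻¹ u) (q.2⁻¹ v)) hq.1
          simp only [SimpleGraph.comap_adj, eq_iff_iff] at this
          simpa using this.symm
        · have := congrFun hq.2 (q.2⁻¹ v)
          simpa using this.symm
      have hq1 : ∀ q : κ × Perm (Fin m),
          ((g q.1).1.comap q.2, fun v => (g q.1).2 (q.2 v)) = b → q.1 = p.1 :=
        fun q h => h3 _ _ ⟨p.2 * q.2⁻¹, hq q h⟩
      refine le_trans (card_le_card_of_injOn (fun q => p.2 * q.2⁻¹) ?_ ?_)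
        (card_aut ⟨m, (g p.1).1, (g p.1).2⟩ (h2 p.1))
      · intro q hq'
        simp only [coe_filter, mem_univ, true_and, Set.mem_ofPred_eq] at hq' ⊢
        have := hq q hq'
        rw [hq1 q hq'] at this
        exact this
      · intro q hq' r hr h
        simp only [coe_filter, mem_univ, true_and, Set.mem_ofPred_eq] at hq' hr
        refine Prod.ext ((hq1 q hq').trans (hq1 r hr).symm) ?_
        simpa using h
  rw [card_univ, Fintype.card_prod, Fintype.card_perm, Fintype.card_fin] at key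
  have key' : (Fintype.card κ : ℝ) * m.factorial ≤ M ^ m * T.card := by exact_mod_cast key
  have hf : (0 : ℝ) < m.factorial := by exact_mod_cast Nat.factorial_pos m
  have : (Fintype.card κ : ℝ) * m.factorial ≤ (B * M ^ m) * m.factorial := by
    refine key'.trans ?_
    calc (M : ℝ) ^ m * T.card ≤ M ^ m * (m.factorial * B) :=
          mul_le_mul_of_nonneg_left hT (by positivity)
      _ = _ := by ring
  exact le_of_mul_le_mul_right this hf

lemma base {P : CG Col → Prop} (hH : Hered P) {n : ℕ} {B : ℝ} (hB : 0 ≤ B) (hP : Few P n B)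
    {M : ℕ} (hM : 1 ≤ M) {ι : Type} [Fintype ι] (f : ι → CG Col)
    (h1 : ∀ i, P (f i) ∧ (f i).m ≤ n ∧ (f i).OrbLe M)
    (h3 : ∀ i j, (f i).Iso (f j) → i = j) :
    (Fintype.card ι : ℝ) ≤ B * (n + 1) * M ^ n := by
  classical
  have h4 : (univ : Finset ι).card =
      ∑ m ∈ range (n + 1), (univ.filter fun i => (f i).m = m).card :=
    card_eq_sum_card_fiberwise (fun i _ => mem_coe.2 (mem_range.2 (Nat.lt_succ_of_le (h1 i).2.1)))
  have h5 : ∀ m ∈ range (n + 1),
      ((univ.filter fun i => (f i).m = m).card : ℝ) ≤ B * M ^ n := by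
    intro m hm
    have hm' : m ≤ n := Nat.lt_succ_iff.1 (mem_range.1 hm)
    have hex : ∀ i : {i // (f i).m = m}, ∃ p : SimpleGraph (Fin m) × (Fin m → Col),
        f i.1 = ⟨m, p.1, p.2⟩ := by
      rintro ⟨i, hi⟩
      subst hi
      exact ⟨((f i).G, (f i).χ), rfl⟩
    choose g hg using hex
    have := base_fixed hH hP (M := M) hm' g (fun i => hg i ▸ (h1 i.1).1)
      (fun i => hg i ▸ (h1 i.1).2.2)
      (fun i j h => Subtype.ext (h3 _ _ (by rw [hg i, hg j]; exact h)))
    rw [Fintype.card_subtype] at this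
    refine this.trans (mul_le_mul_of_nonneg_left (pow_le_pow_right₀ ?_ hm') hB)
    exact_mod_cast hM
  rw [← card_univ, h4]
  push_cast
  refine (sum_le_card_nsmul _ _ _ h5).trans ?_
  rw [card_range, nsmul_eq_mul]
  push_cast
  apply le_of_eq
  ring

end Pool.Agent.H201Z.Tiny
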