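import Pool.Agent.H201Z.Tiny.E

/-! One stage of the reduction, the induction over scales, and the theorem. -/

namespace Pool.Agent.H201Z.Tiny

open Finset Equiv

variable {Col : Type}

/-- `X'` is obtained from `X` by marking and removing clones -/
def Red (X : CG Col) (X' : CG ((Col × ℕ) × ℕ)) : Prop :=
  ∃ (μ : Fin X.m → ℕ) (c : Clones X.G (fun v => (X.χ v, μ v))) (e : Fin X'.m ↪ Fin X.m),
    (∀ v, v ∈ c.U ↔ ∃ a, e a = v) ∧ (∀ a b, X'.G.Adj a b ↔ X.G.Adj (e a) (e b)) ∧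
      ∀ a, X'.χ a = ((X.χ (e a), μ (e a)), c.mark (e a))

lemma red_ext {X Y : CG Col} {X' Y' : CG ((Col × ℕ) × ℕ)}
    (μ : Fin X.m → ℕ) (c : Clones X.G (fun v => (X.χ v, μ v))) (e : Fin X'.m ↪ Fin X.m)
    (h1 : ∀ v, v ∈ c.U ↔ ∃ a, e a = v) (h2 : ∀ a b, X'.G.Adj a b ↔ X.G.Adj (e a) (e b))
    (h3 : ∀ a, X'.χ a = ((X.χ (e a), μ (e a)), c.mark (e a)))
    (ν : Fin Y.m → ℕ) (d : Clones Y.G (fun v => (Y.χ v, ν v))) (e' : Fin Y'.m ↪ Fin Y.m)
    (k1 : ∀ v, v ∈ d.U ↔ ∃ a, e' a = v) (k2 : ∀ a b, Y'.G.Adj a b ↔ Y.G.Adj (e' a) (e' b))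
    (k3 : ∀ a, Y'.χ a = ((Y.χ (e' a), ν (e' a)), d.mark (e' a)))
    (φ : Fin X'.m ≃ Fin Y'.m) (l1 : ∀ u v, Y'.G.Adj (φ u) (φ v) ↔ X'.G.Adj u v)
    (l2 : ∀ v, Y'.χ (φ v) = X'.χ v) :
    ∃ Ψ : Fin X.m ≃ Fin Y.m, (∀ u v, Y.G.Adj (Ψ u) (Ψ v) ↔ X.G.Adj u v) ∧
      (∀ v, (Y.χ (Ψ v), ν (Ψ v)) = (X.χ v, μ v)) ∧ ∀ a, Ψ (e a) = e' (φ a) := by
  classical
  rcases isEmpty_or_nonempty (Fin Y.m) with hY | hY
  · have hX : IsEmpty (Fin X.m) := by
      by_contra hX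
      rw [not_isEmpty_iff] at hX
      obtain ⟨v⟩ := hX
      by_cases hv : v ∈ c.U
      · obtain ⟨a, -⟩ := (h1 v).1 hv
        exact hY.elim (e' (φ a))
      · simp only [Clones.U, Set.mem_ofPred_eq, not_forall] at hv
        obtain ⟨x, hx, -⟩ := hv
        obtain ⟨a, -⟩ := (h1 x).1 (c.Z_mem_U hx)
        exact hY.elim (e' (φ a))
    exact ⟨Equiv.equivOfIsEmpty _ _, fun u => hX.elim u, fun u => hX.elim u,
      fun a => hX.elim (e a)⟩
  let ψ : Fin X.m → Fin Y.m := Function.extend e (fun a => e' (φ a)) (fun _ => hY.some)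
  have hψ : ∀ a, ψ (e a) = e' (φ a) := fun a => e.injective.extend_apply _ _ a
  obtain ⟨Ψ, p1, p2, p3⟩ := decode c d ψ
    (by
      intro v hv
      obtain ⟨a, rfl⟩ := (h1 v).1 hv
      rw [hψ]
      exact (k1 _).2 ⟨_, rfl⟩)
    (by
      intro u hu v hv h
      obtain ⟨a, rfl⟩ := (h1 u).1 hu
      obtain ⟨b, rfl⟩ := (h1 v).1 hv
      rw [hψ, hψ] at h
      rw [φ.injective (e'.injective h)])
    (by
      intro w hw
      obtain ⟨b, rfl⟩ := (k1 w).1 hw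
      exact ⟨e (φ.symm b), (h1 _).2 ⟨_, rfl⟩, by rw [hψ]; simp⟩)
    (by
      intro u hu v hv
      obtain ⟨a, rfl⟩ := (h1 u).1 hu
      obtain ⟨b, rfl⟩ := (h1 v).1 hv
      rw [hψ, hψ, ← k2, ← h2, l1])
    (by
      intro v hv
      obtain ⟨a, rfl⟩ := (h1 v).1 hv
      have := l2 a
      rw [k3, h3] at this
      rw [hψ]
      exact congrArg Prod.fst this)
    (by
      intro v hv
      obtain ⟨a, rfl⟩ := (h1 v).1 hv
      have := l2 a
      rw [k3, h3] at this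
      rw [hψ]
      exact congrArg Prod.snd this)
  exact ⟨Ψ, p1, p2, fun a => by rw [p3 _ ((h1 _).2 ⟨a, rfl⟩), hψ]⟩

lemma Red.iso {X Y : CG Col} {X' Y' : CG ((Col × ℕ) × ℕ)} (hX : Red X X') (hY : Red Y Y')
    (h : X'.Iso Y') : X.Iso Y := by
  obtain ⟨μ, c, e, h1, h2, h3⟩ := hX
  obtain ⟨ν, d, e', k1, k2, k3⟩ := hY
  obtain ⟨φ, l1, l2⟩ := h
  obtain ⟨Ψ, p1, p2, -⟩ := red_ext μ c e h1 h2 h3 ν d e' k1 k2 k3 φ l1 l2
  exact ⟨Ψ, p1, fun v => congrArg Prod.fst (p2 v)⟩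

theorem stage (X : CG Col) {L M : ℕ} (hL : 3 ≤ L) (hM3 : 3 ≤ M) (hM : X.OrbLe M) (h n : ℕ)
    (hn : X.m ≤ n) :
    ∃ X' : CG ((Col × ℕ) × ℕ), Red X X' ∧ X'.m ≤ n ∧ X'.OrbLe (4 * L ^ 3) ∧
      ∀ P : CG Col → Prop, Hered P → P X →
        Mark (Mark P M (2 * (h * (n / L + 1) + n * M / 2 ^ h) + 3 * (n / L))) M
          (2 * (h * (n / L + 1) + n * M / 2 ^ h) + 3 * (n / L)) X' := by
  classical
  have hA : Acts X.G X.Aut := fun g hg => hg.1
  obtain ⟨S, hS, ⟨Pc⟩⟩ := key hA (L := L) (by omega) hM (by omega) h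
  rw [Fintype.card_fin] at hS
  have hdiv : X.m / L ≤ n / L := Nat.div_le_div_right hn
  have hS' : S.card ≤ 2 * (h * (n / L + 1) + n * M / 2 ^ h) + 3 * (n / L) := by
    have h1 : h * (X.m / L + 1) ≤ h * (n / L + 1) := Nat.mul_le_mul_left _ (by omega)
    have h2 : X.m * M / 2 ^ h ≤ n * M / 2 ^ h :=
      Nat.div_le_div_right (Nat.mul_le_mul_right _ hn)
    omega
  obtain ⟨idx, hidx1, hidx2⟩ : ∃ idx : Fin X.m → ℕ, (∀ v, idx v < M) ∧
      ∀ v, ∀ g ∈ X.Aut, idx (g v) = idx v → g v = v := by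
    rcases isEmpty_or_nonempty (Fin X.m) with hE | hE
    · exact ⟨fun _ => 0, fun v => hE.elim v, fun v => hE.elim v⟩
    have : Inhabited (Fin X.m) := ⟨hE.some⟩
    obtain ⟨en, -, -, en3⟩ := exists_enum (α := Fin X.m)
    choose idx h1 h2 using fun v => en3 (orb X.Aut v) v (self_mem_orb _ v)
    refine ⟨idx, fun v => (h1 v).trans_le (hM v), fun v g hg hv => ?_⟩
    have := h2 (g v)
    rw [orb_apply hg, hv, h2 v] at this
    exact this.symm
  let μ : Fin X.m → ℕ := fun v => if v ∈ S then idx v + 1 else 0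
  have hμ : ∀ g : Perm (Fin X.m), g ∈ fixS X.Aut S ↔ g ∈ X.Aut ∧ ∀ v, μ (g v) = μ v := by
    intro g
    constructor
    · rintro ⟨h1, h2⟩
      refine ⟨h1, fun v => ?_⟩
      by_cases hv : v ∈ S
      · rw [h2 v hv]
      · have : g v ∉ S := fun h => hv (g.injective (h2 _ h) ▸ h)
        simp only [μ, if_neg hv, if_neg this]
    · rintro ⟨h1, h2⟩
      refine ⟨h1, fun s hs => hidx2 s g h1 ?_⟩
      have := h2 s
      simp only [μ, if_pos hs] at this
      split_ifs at this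
      omega
  obtain ⟨c, hc1, hc2, hc3⟩ := exists_clones (G := X.G) (A := fixS X.Aut S)
    (fun g hg => hA g hg.1) (χ := fun v => (X.χ v, μ v))
    (fun g hg v => Prod.ext (hg.1.2 v) (((hμ g).1 hg).2 v)) hL
    (fun x => (card_le_card (orb_mono (fixS_le _ _) x)).trans (hM x)) Pc
  rw [Fintype.card_fin] at hc1
  set U : Finset (Fin X.m) := univ.filter fun v => v ∈ c.U with hU
  let e : Fin U.card ↪ Fin X.m := (U.orderEmbOfFin rfl).toEmbedding
  have he : ∀ v, v ∈ c.U ↔ ∃ a, e a = v := by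
    intro v
    have := range_orderEmbOfFin U rfl
    have h2 : v ∈ c.U ↔ v ∈ (U : Set (Fin X.m)) := by simp [hU]
    rw [h2, ← this]
    rfl
  let X' : CG ((Col × ℕ) × ℕ) :=
    ⟨U.card, X.G.comap e, fun a => ((X.χ (e a), μ (e a)), c.mark (e a))⟩
  refine ⟨X', ⟨μ, c, e, he, fun _ _ => Iff.rfl, fun _ => rfl⟩, ?_, ?_, ?_⟩
  · refine le_trans (card_le_univ U) ?_
    rwa [Fintype.card_fin]
  · intro a
    refine le_trans (card_le_card_of_injOn e ?_ (fun _ _ _ _ h => e.injective h)) (hc3 (e a))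
    intro b hb
    obtain ⟨φ, hφ, rfl⟩ := mem_orb.1 (mem_coe.1 hb)
    obtain ⟨Ψ, p1, p2, p3⟩ := red_ext (X' := X') (Y' := X') μ c e he (fun _ _ => Iff.rfl)
      (fun _ => rfl) μ c e he (fun _ _ => Iff.rfl) (fun _ => rfl) φ hφ.1 hφ.2
    refine mem_coe.2 (mem_filter.2 ⟨mem_orb.2 ⟨Ψ, (hμ Ψ).2
      ⟨⟨p1, fun v => congrArg Prod.fst (p2 v)⟩, fun v => congrArg Prod.snd (p2 v)⟩, p3 a⟩, ?_⟩)
    exact (he _).2 ⟨_, rfl⟩
  · intro P hP hX
    refine ⟨⟨hP X hX _ e, ?_, ?_⟩, ?_, ?_⟩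
    · intro a
      show μ (e a) ≤ M
      simp only [μ]
      split_ifs
      · exact hidx1 _
      · omega
    · refine le_trans (card_le_card_of_injOn e ?_ (fun _ _ _ _ h => e.injective h)) hS'
      intro a ha
      have h1 : μ (e a) ≠ 0 := (mem_filter.1 (mem_coe.1 ha)).2
      by_contra h2
      exact h1 (if_neg h2)
    · intro a
      show c.mark (e a) ≤ M
      unfold Clones.mark
      split_ifs with h1
      · exact hc2 _ h1
      all_goals omega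
    · have h1 : c.Z.card ≤ n / L := by
        rw [Nat.le_div_iff_mul_le (by omega)]
        rw [mul_comm]
        exact hc1.trans hn
      have h2 : (c.Z ∪ (c.Z.image (fun x => c.cl x 1) ∪ c.Z.image (fun x => c.cl x 2))).card ≤
          3 * (n / L) := by
        have h3 := card_union_le c.Z
          (c.Z.image (fun x => c.cl x 1) ∪ c.Z.image (fun x => c.cl x 2))
        have h4 := card_union_le (c.Z.image (fun x => c.cl x 1)) (c.Z.image (fun x => c.cl x 2))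
        have h5 := card_image_le (s := c.Z) (f := fun x => c.cl x 1)
        have h6 := card_image_le (s := c.Z) (f := fun x => c.cl x 2)
        omega
      refine le_trans (card_le_card_of_injOn e ?_ (fun _ _ _ _ h => e.injective h))
        (h2.trans (Nat.le_add_left _ _))
      intro a ha
      have h3 : c.mark (e a) ≠ 0 := (mem_filter.1 (mem_coe.1 ha)).2
      unfold Clones.mark at h3
      simp only [coe_union, coe_image, Set.mem_union, mem_coe, Set.mem_image]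
      split_ifs at h3 with h4 h5 h6
      · exact Or.inl h4
      · exact Or.inr (Or.inl h5)
      · exact Or.inr (Or.inr h6)
      · exact absurd rfl h3

end Pool.Agent.H201Z.Tiny
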