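import Pool.Agent.H201Z.Tiny.F

/-! The induction over scales and the theorem: small hereditary classes are tiny. -/

namespace Pool.Agent.H201Z.Tiny

open Finset Equiv

lemma sq_le_two_pow (a : ℕ) (ha : 4 ≤ a) : a ^ 2 ≤ 2 ^ a := by
  induction a, ha using Nat.le_induction with
  | base => norm_num
  | succ k hk ih => rw [pow_succ 2 k]; nlinarith

lemma t_bound (a n : ℕ) (ha : 4 ≤ a) (hn : a ^ 3 ≤ n) :
    a ^ 2 * (2 * (2 * a * (n / a ^ 3 + 1) + n * 2 ^ a / 2 ^ (2 * a)) + 3 * (n / a ^ 3)) ≤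
      13 * n := by
  have h1 : a ^ 3 * (n / a ^ 3) ≤ n := Nat.mul_div_le n _
  have h2 : n * 2 ^ a / 2 ^ (2 * a) * 2 ^ (2 * a) ≤ n * 2 ^ a := Nat.div_mul_le_self _ _
  set q := n * 2 ^ a / 2 ^ (2 * a)
  set r := n / a ^ 3
  have h3 : q * 2 ^ a ≤ n := by
    rw [two_mul, pow_add, ← mul_assoc] at h2
    exact Nat.le_of_mul_le_mul_right h2 (by positivity)
  have h4 : a ^ 2 * q ≤ n := by
    rw [mul_comm]
    exact (Nat.mul_le_mul_left q (sq_le_two_pow a ha)).trans h3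
  have h5 : a ^ 2 * r ≤ n :=
    (Nat.mul_le_mul_right r (Nat.pow_le_pow_right (by omega) (by norm_num))).trans h1
  have e : a ^ 2 * (2 * (2 * a * (r + 1) + q) + 3 * r) =
      4 * (a ^ 3 * r) + 4 * a ^ 3 + 2 * (a ^ 2 * q) + 3 * (a ^ 2 * r) := by ring
  omega

lemma factor_bound (a n t : ℕ) (ha : 4 ≤ a) (ht : a ^ 2 * t ≤ 13 * n) :
    (1 + ((2 ^ a : ℕ) : ℝ) * (1 / (2 ^ a * a))) ^ n / (1 / (2 ^ a * a : ℝ)) ^ t ≤
      Real.exp (27 * n / a) := by
  have ha' : (0 : ℝ) < a := by positivity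
  have h1 : (1 + ((2 ^ a : ℕ) : ℝ) * (1 / (2 ^ a * a))) = 1 / a + 1 := by
    push_cast
    field_simp
    ring
  have h2 : (1 / a + 1 : ℝ) ^ n ≤ Real.exp (n / a) := by
    have : (n / a : ℝ) = n * (1 / a) := by ring
    rw [this, Real.exp_nat_mul]
    exact pow_le_pow_left₀ (by positivity) (Real.add_one_le_exp _) n
  have h3 : (2 : ℝ) ^ a ≤ Real.exp a := by
    rw [← mul_one (a : ℝ), Real.exp_nat_mul]
    apply pow_le_pow_left₀ (by norm_num)
    have := Real.add_one_le_exp (1 : ℝ)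
    linarith
  have h4 : (a : ℝ) ≤ Real.exp a := by
    have := Real.add_one_le_exp (a : ℝ)
    linarith
  have h5 : (2 ^ a * a : ℝ) ≤ Real.exp (2 * a) := by
    rw [two_mul, Real.exp_add]
    exact mul_le_mul h3 h4 ha'.le (by positivity)
  have h6 : (2 ^ a * a : ℝ) ^ t ≤ Real.exp (26 * n / a) := by
    refine (pow_le_pow_left₀ (by positivity) h5 t).trans ?_
    rw [← Real.exp_nat_mul, Real.exp_le_exp, le_div_iff₀ ha']
    have : (a : ℝ) ^ 2 * t ≤ 13 * n := by exact_mod_cast ht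
    nlinarith
  rw [h1, one_div (2 ^ a * a : ℝ), inv_pow, div_inv_eq_mul]
  refine (mul_le_mul h2 h6 (by positivity) (by positivity)).trans ?_
  rw [← Real.exp_add]
  apply le_of_eq
  congr 1
  ring

lemma Few.mono {Col : Type} {P : CG Col → Prop} {n : ℕ} {B B' : ℝ} (h : Few P n B) (hB : B ≤ B') :
    Few P n B' := by
  intro m hm
  obtain ⟨T, hT, hT'⟩ := h m hm
  exact ⟨T, hT.trans (mul_le_mul_of_nonneg_left hB (by positivity)), hT'⟩

theorem count (j : ℕ) : ∀ (Col : Type) (P : CG Col → Prop) (n : ℕ) (B : ℝ), 0 ≤ B → Hered P →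
    Few P n B → ∀ (ι : Type) [Fintype ι] (f : ι → CG Col),
    (∀ i, P (f i) ∧ (f i).m ≤ n ∧ (f i).OrbLe (2 ^ 2 ^ (j + 7))) →
    (∀ i i', (f i).Iso (f i') → i = i') →
    (Fintype.card ι : ℝ) ≤
      B * Real.exp (n * (1 - 1 / 2 ^ j)) * (n + 1) * ((2 ^ 2 ^ 7 : ℕ) : ℝ) ^ n := by
  induction j with
  | zero =>
    intro Col P n B hB hH hP ι _ f h1 h2
    have := base hH hB hP (M := 2 ^ 2 ^ 7) Nat.one_le_two_pow f h1 h2
    simpa using this
  | succ j ih =>
    intro Col P n B hB hH hP ι _ f h1 h2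
    have hj : (0 : ℝ) < 2 ^ j := by positivity
    by_cases hn : n ≤ 2 ^ 2 ^ (j + 7)
    · refine (ih Col P n B hB hH hP ι f (fun i => ⟨(h1 i).1, (h1 i).2.1, fun x => ?_⟩) h2).trans ?_
      · refine (card_le_univ _).trans ?_
        rw [Fintype.card_fin]
        exact (h1 i).2.1.trans hn
      · gcongr
        · norm_num
        · omega
    obtain ⟨a, ha⟩ : ∃ a, a = 2 ^ (j + 8) := ⟨_, rfl⟩
    have hjj : j < 2 ^ j := Nat.lt_two_pow_self
    have ha4 : 4 ≤ a := by rw [ha, pow_add]; omega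
    have hL : 4 * (a ^ 3) ^ 3 ≤ 2 ^ 2 ^ (j + 7) := by
      have : 4 * (a ^ 3) ^ 3 = 2 ^ (9 * j + 74) := by rw [ha]; ring
      rw [this]
      apply Nat.pow_le_pow_right (by norm_num)
      rw [pow_add]
      omega
    have h3 : 3 ≤ a ^ 3 := le_trans (by norm_num) (Nat.pow_le_pow_left ha4 3)
    have hna : a ^ 3 ≤ n := by
      have : a ^ 3 ≤ (a ^ 3) ^ 3 := Nat.le_self_pow (by norm_num) _
      omega
    have hM3 : 3 ≤ 2 ^ a := le_trans (by norm_num) (Nat.pow_le_pow_right (by norm_num) ha4)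
    have hst := fun i => stage (f i) (L := a ^ 3) (M := 2 ^ a) h3 hM3
      (by rw [ha]; exact (h1 i).2.2) (2 * a) n (h1 i).2.1
    choose f' r1 r2 r3 r4 using hst
    have ht := t_bound a n ha4 hna
    set t := 2 * (2 * a * (n / a ^ 3 + 1) + n * 2 ^ a / 2 ^ (2 * a)) + 3 * (n / a ^ 3)
    have hF := factor_bound a n t ha4 ht
    have ha' : (0 : ℝ) < a := by positivity
    have hx : (0 : ℝ) < 1 / (2 ^ a * a) := by positivity
    have hx1 : (1 / (2 ^ a * a) : ℝ) ≤ 1 := by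
      rw [div_le_one (by positivity)]
      have e1 : (1 : ℝ) ≤ 2 ^ a := one_le_pow₀ (by norm_num)
      have e2 : (1 : ℝ) ≤ a := by exact_mod_cast (by omega : 1 ≤ a)
      nlinarith
    have k1 := (hP.mark hB (2 ^ a) t _ hx hx1).mono (mul_le_mul_of_nonneg_left hF hB)
    have hB1 : 0 ≤ B * Real.exp (27 * n / a) := by positivity
    have k2 := (k1.mark hB1 (2 ^ a) t _ hx hx1).mono (mul_le_mul_of_nonneg_left hF hB1)
    have := ih _ _ n _ (by positivity) ((hH.mark _ _).mark _ _) k2 ι f'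
      (fun i => ⟨r4 i P hH (h1 i).1, r2 i, fun x => (r3 i x).trans hL⟩)
      (fun i i' h => h2 i i' ((r1 i).iso (r1 i') h))
    refine this.trans ?_
    have e : B * Real.exp (27 * n / a) * Real.exp (27 * n / a) * Real.exp (n * (1 - 1 / 2 ^ j)) ≤
        B * Real.exp (n * (1 - 1 / 2 ^ (j + 1))) := by
      rw [mul_assoc, mul_assoc, ← Real.exp_add, ← Real.exp_add]
      apply mul_le_mul_of_nonneg_left _ hB
      rw [Real.exp_le_exp]
      have e1 : (a : ℝ) = 256 * 2 ^ j := by rw [ha]; push_cast; ring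
      have e2 : (0 : ℝ) ≤ n / 2 ^ j := by positivity
      have e3 : 27 * (n : ℝ) / a = 27 / 256 * (n / 2 ^ j) := by rw [e1]; field_simp
      have e4 : (n : ℝ) * (1 - 1 / 2 ^ j) = n - n / 2 ^ j := by ring
      have e5 : (n : ℝ) * (1 - 1 / 2 ^ (j + 1)) = n - 1 / 2 * (n / 2 ^ j) := by
        rw [pow_succ]; field_simp
      rw [e3, e4, e5]
      linarith
    gcongr

theorem small_tiny (P : (n : ℕ) → SimpleGraph (Fin n) → Prop)
    (hP : ∀ (n m : ℕ) (f : Fin m ↪ Fin n) (G : SimpleGraph (Fin n)), P n G → P m (G.comap f))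
    (hc : ∃ c : ℕ, ∀ n : ℕ, {G : SimpleGraph (Fin n) | P n G}.ncard ≤ Nat.factorial n * c ^ n) :
    ∃ c : ℕ, ∀ n : ℕ, ∃ S : Finset (SimpleGraph (Fin n)), S.card ≤ c ^ n ∧
      ∀ G : SimpleGraph (Fin n), P n G → ∃ H ∈ S, Nonempty (G ≃g H) := by
  classical
  obtain ⟨c, hc⟩ := hc
  refine ⟨(c + 1) * 3 * 2 * 2 ^ 2 ^ 7, fun n => ?_⟩
  let s : Setoid {G : SimpleGraph (Fin n) // P n G} :=
    ⟨fun G H => Nonempty (G.1 ≃g H.1), fun _ => ⟨SimpleGraph.Iso.refl⟩,
      fun ⟨e⟩ => ⟨e.symm⟩, fun ⟨e⟩ ⟨e'⟩ => ⟨e.trans e'⟩⟩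
  have : Fintype (Quotient s) := Fintype.ofFinite _
  have hcount := count n Unit (fun X => P X.m X.G) n (((c + 1) ^ n : ℕ) : ℝ) (by positivity)
    (fun X hX m f => hP _ _ f _ hX)
    (by
      intro m hm
      refine ⟨(univ.filter fun G => P m G).image fun G => (G, fun _ => ()), ?_, ?_⟩
      · have h1 := hc m
        rw [Set.ncard_eq_toFinset_card', Set.toFinset_ofPred] at h1
        have h2 : c ^ m ≤ (c + 1) ^ n :=
          (Nat.pow_le_pow_left (by omega) m).trans (Nat.pow_le_pow_right (by omega) hm)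
        have h3 := (card_image_le (f := fun G => (G, fun _ : Fin m => ()))).trans
          (h1.trans (Nat.mul_le_mul_left _ h2))
        exact_mod_cast h3
      · intro G χ h
        exact mem_image.2 ⟨G, mem_filter.2 ⟨mem_univ _, h⟩, rfl⟩)
    (Quotient s) (fun q => ⟨n, q.out.1, fun _ => ()⟩)
    (by
      intro q
      refine ⟨q.out.2, le_rfl, fun x => (card_le_univ _).trans ?_⟩
      rw [Fintype.card_fin]
      show n ≤ _
      have h1 : n + 7 < 2 ^ (n + 7) := Nat.lt_two_pow_self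
      have h2 : 2 ^ (n + 7) < 2 ^ 2 ^ (n + 7) := Nat.lt_two_pow_self
      omega)
    (by
      rintro q q' ⟨e, he, -⟩
      rw [← q.out_eq, ← q'.out_eq]
      exact Quotient.sound ⟨⟨e, fun {a b} => he a b⟩⟩)
  refine ⟨univ.image fun q : Quotient s => q.out.1, ?_, ?_⟩
  · refine card_image_le.trans ?_
    rw [card_univ]
    have h1 : Real.exp (n * (1 - 1 / 2 ^ n)) ≤ 3 ^ n := by
      have h2 : (n : ℝ) * (1 - 1 / 2 ^ n) ≤ n * 1 := by
        apply mul_le_mul_of_nonneg_left _ (by positivity)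
        have : (0 : ℝ) ≤ 1 / 2 ^ n := by positivity
        linarith
      refine (Real.exp_le_exp.2 h2).trans ?_
      rw [Real.exp_nat_mul]
      apply pow_le_pow_left₀ (by positivity)
      have := Real.exp_one_lt_d9
      linarith
    have h2 : ((n : ℝ) + 1) ≤ 2 ^ n := by
      have : n + 1 ≤ 2 ^ n := Nat.lt_two_pow_self
      exact_mod_cast this
    have h3 : (Fintype.card (Quotient s) : ℝ) ≤
        (((c + 1) ^ n : ℕ) : ℝ) * 3 ^ n * 2 ^ n * ((2 ^ 2 ^ 7 : ℕ) : ℝ) ^ n := by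
      refine hcount.trans ?_
      gcongr
    rw [mul_pow, mul_pow, mul_pow]
    exact_mod_cast h3
  · intro G hG
    refine ⟨_, mem_image_of_mem _ (mem_univ (Quotient.mk s ⟨G, hG⟩)), ?_⟩
    exact s.symm (Quotient.mk_out (s := s) ⟨G, hG⟩)

end Pool.Agent.H201Z.Tiny
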